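import Pool.Agent.H18.VP.Defs

/-!
# Targets for an algebraically closed field of finite transcendence degree
-/

open MvPolynomial
open Pool.Agent.H12.ZD (pmap)
open Pool.Agent.H18.HIT Pool.Agent.H18.HX

namespace Pool.Agent.H18.VP

/-- fields of finite transcendence degree over `ℚ` -/
def Ftd (k : Type) [Field k] [CharZero k] : Prop :=
  ∃ s : Finset k, Algebra.IsAlgebraic (IntermediateField.adjoin ℚ (s : Set k)) k

/-- places at which given elements are units -/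
def T_PLC : Prop := ∀ (k : Type) [Field k] [CharZero k] [IsAlgClosed k], Ftd k →
  ∀ (s : Finset k) (M : ℕ), (∀ a ∈ s, a ≠ 0) → ∃ p : Pl k, M < (p : ℕ) ∧ ∀ a ∈ s, v p a = 1

/-- restriction to the line `y + t b` -/
noncomputable def linK {k : Type} [Field k] {N : ℕ} (y b : Fin N → ℤ) : Po N k →+* Polynomial k :=
  (aeval (fun i => Polynomial.C ((y i : k)) + Polynomial.C ((b i : k)) * Polynomial.X) :
    Po N k →ₐ[k] Polynomial k).toRingHom

/-- Bertini's theorem for lines -/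
def T_BRK : Prop := ∀ (N : ℕ) (k : Type) [Field k] [CharZero k] [IsAlgClosed k]
  (Φ : Polynomial (Po N k)) (c : Po N k), Φ.Monic → Irreducible Φ → c ≠ 0 →
  ∃ y b : Fin N → ℤ, Irreducible (Φ.map (linK y b)) ∧ linK y b c ≠ 0

/-- Hilbert's irreducibility theorem over a finitely generated field -/
def T_HKK : Prop := ∀ (k : Type) [Field k] [CharZero k] [IsAlgClosed k], Ftd k →
  ∀ (Ψ : Polynomial (Polynomial k)) (s : Finset k), Ψ.Monic → Irreducible Ψ →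
  ∀ M : ℕ, ∃ t : ℤ, (M : ℤ) < |t| ∧ ∀ ρ ρ' : k,
    (Ψ.map (Polynomial.evalRingHom (t : k))).eval ρ = 0 →
    (Ψ.map (Polynomial.evalRingHom (t : k))).eval ρ' = 0 →
    ∃ σ : k ≃+* k, (∀ a ∈ s, σ a = a) ∧ σ ρ = ρ'

/-- points with integer coordinates whose fibre is one Galois orbit -/
def T_HGK : Prop := ∀ (k : Type) [Field k] [CharZero k] [IsAlgClosed k], Ftd k →
  ∀ (L N : ℕ) (I : Ideal (Po L k)) [I.IsPrime] (g : Fin N → Po L k)
  (s : Finset (Po L k)) (c : Po N k), (∀ q : Po N k, aeval g q ∈ I → q = 0) →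
  (∀ i, ∃ Q : Polynomial (Po N k), Q ≠ 0 ∧ evg g (X i) Q ∈ I) → c ≠ 0 →
  ∃ w : Fin N → ℤ, eval (cZ w) c ≠ 0 ∧ ∀ x x' : Fin L → k, Zer I x → Zer I x' →
    (∀ j, eval x (g j) = (w j : k)) → (∀ j, eval x' (g j) = (w j : k)) →
    ∃ σ : k ≃+* k, (∀ q ∈ s, map (σ : k →+* k) q = q) ∧ ∀ i, σ (x i) = x' i

/-- an iterate which is the identity modulo `p` in suitable coordinates -/
def T_FLW (Qb : Type) [Field Qb] : Prop := ∀ (N : ℕ) (p : Pl Qb) (f₀ : Tup N (O p)) (a : Fin N → O p),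
  (∀ n, v p ((eval ((pmap f₀)^[n] a) (jac f₀) : O p) : Qb) = 1) →
  ∃ (k m : ℕ) (H : Tup N (O p)), 1 ≤ k ∧ ∀ i,
    aeval (fun j => C ((pmap f₀)^[m] a j) + C (((p : ℕ) : O p) ^ 2) * X j) (it f₀ k i) =
      C ((pmap f₀)^[m] a i) + C (((p : ℕ) : O p) ^ 2) * fl p H i

/-- continuity in the time -/
def T_INA (Qb : Type) [Field Qb] : Prop := ∀ (N : ℕ) (p : Pl Qb) (H : Tup N (O p)) (c : Po N (O p))
  (z : Fin N → O p) (n : ℕ), 3 ≤ (p : ℕ) →
  v p (((eval ((pmap (fl p H))^[n] z) c : O p) : Qb) - ((eval z c : O p) : Qb)) ≤ v p (n : Qb)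

/-- the coefficients of `((1 + T) ^ M - 1) ^ r` -/
def T_BIN (Qb : Type) [Field Qb] : Prop := ∀ (p : Pl Qb) (M r j : ℕ), 3 ≤ (p : ℕ) → 1 ≤ M →
  v p ((((((1 + Polynomial.X) ^ M - 1) ^ r : Polynomial ℤ).coeff (r + j) : ℤ) : Qb)) ^ 2 ≤
    v p (M : Qb) ^ (2 * r) * ((p : ℕ) : ℝ) ^ j

/-- analyticity in the time -/
def T_INB (Qb : Type) [Field Qb] : Prop := ∀ (N : ℕ) (p : Pl Qb) (H : Tup N (O p)) (c : Po N (O p))
  (z : Fin N → O p) (M : ℕ), 3 ≤ (p : ℕ) → 1 ≤ M →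
  (∀ n, eval ((pmap (fl p H))^[M * n] z) c = 0) → ∀ n, eval ((pmap (fl p H))^[n] z) c = 0

/-- cancellation in the ideal of an orbit -/
def T_INC (Qb : Type) [Field Qb] : Prop := ∀ (N : ℕ) (p : Pl Qb) (H : Tup N (O p)) (z : Fin N → O p)
  (h c : Po N Qb), 3 ≤ (p : ℕ) → h * c ∈ van (flQ p H) (cO z) → eval (cO z) h ≠ 0 →
  c ∈ van (flQ p H) (cO z)

/-- the ideal of an orbit is prime -/
def T_PRM (Qb : Type) [Field Qb] : Prop := ∀ (N : ℕ) (p : Pl Qb) (H : Tup N (O p)) (z : Fin N → O p),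
  3 ≤ (p : ℕ) → (van (flQ p H) (cO z)).IsPrime

/-- points of the hypersurface over the residue field can be lifted -/
def T_LFX (Qb : Type) [Field Qb] : Prop := ∀ (N : ℕ) (p : Pl Qb) (P : Po (N + 1) (O p)), Mny P →
  ∀ x : Fin (N + 1) → Res p, eval x (map (IsLocalRing.residue (O p)) P) = 0 →
  ∃ a : Fin (N + 1) → O p, (∀ i, IsLocalRing.residue (O p) (a i) = x i) ∧ eval a P = 0

/-- a point of the hypersurface with good orbit at a large prime -/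
def T_GDX (Qb : Type) [Field Qb] : Prop := ∀ (N r d M : ℕ) (P : Po (N + 1) Qb) (F : Tup (N + 1) Qb)
  (s : Finset (Po (N + 1) Qb)), 1 ≤ N → Hyp P r → (∀ i, (F i).IsHomogeneous d) →
  Slf (Ideal.span {P}) F → (∀ b ∈ s, (∃ m, b.IsHomogeneous m) ∧ ¬ P ∣ b) →
  ∃ (p : Pl Qb) (P₀ : Po (N + 1) (O p)) (F₀ : Tup (N + 1) (O p)) (a : Fin (N + 1) → O p),
    M < (p : ℕ) ∧ Mny P₀ ∧ map (O p).subtype P₀ = P ∧ (∀ i, map (O p).subtype (F₀ i) = F i) ∧
    eval a P₀ = 0 ∧ ∀ b ∈ s, (∃ b₀ : Po (N + 1) (O p), map (O p).subtype b₀ = b) ∧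
      ∀ n, v p (eval (cO ((pmap F₀)^[n] a)) b) = 1

/-- a preimage in the closure of the forward orbit -/
def T_PRX (Qb : Type) [Field Qb] : Prop := ∀ (L N : ℕ) (p : Pl Qb) (H : Tup L (O p)) (ι : Fin N → Fin L)
  (z : Fin L → O p) (θ : Po L Qb) (Φ : Polynomial (Po N Qb)) (Δ : Po N Qb)
  (R : Fin L → Polynomial (Po N Qb)), 3 ≤ (p : ℕ) → Φ.Monic →
  evg (fun j => flQ p H (ι j)) θ Φ ∈ van (flQ p H) (cO z) →
  (∀ i, aeval (fun j => flQ p H (ι j)) Δ * X i - evg (fun j => flQ p H (ι j)) θ (R i) ∈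
    van (flQ p H) (cO z)) → eval (fun j => cO z (ι j)) Δ ≠ 0 →
  ∃ x : Fin L → O p, pmap (fl p H) x = z ∧ ∀ c ∈ van (flQ p H) (cO z), eval (cO x) c = 0

/-- Hensel's lemma: points of the hypersurface over given coordinates `X i.succ` -/
def T_HNX (Qb : Type) [Field Qb] : Prop := ∀ (N : ℕ) (p : Pl Qb) (P : Po (N + 1) (O p)) (a : Fin (N + 1) → O p),
  Mny P → eval a P = 0 → v p ((eval a (pderiv 0 P) : O p) : Qb) = 1 → ∀ w : Fin N → O p,
  ∃ u : O p, eval (fun i => a i + ((p : ℕ) : O p) ^ 2 * (Fin.cons u w : Fin (N + 1) → O p) i) P = 0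

end Pool.Agent.H18.VP
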