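import Pool.Agent.H18.VP.Cor

/-!
# A point whose orbit closure is totally invariant: `T_COR`
-/

set_option linter.unusedSectionVars false

open MvPolynomial
open Pool.Agent.H12.ZD (pmap)
open Pool.Agent.H18.HIT Pool.Agent.H18.HX Pool.Agent.H18.VZ

namespace Pool.Agent.H18.VP

theorem it_sub_mem {L : ℕ} {k : Type} [Field k] {I : Ideal (Po L k)} {f g : Tup L k}
    (hf : Slf I f) (h : ∀ i, g i - f i ∈ I) (n : ℕ) : ∀ i, it g n i - it f n i ∈ I := by
  induction n with
  | zero => intro i; rw [it_zero, it_zero, sub_self]; exact I.zero_mem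
  | succ n ih =>
    intro i
    rw [it_succ, it_succ]
    change aeval (it g n) (g i) - aeval (it f n) (f i) ∈ I
    have h1 : aeval (it g n) (g i) - aeval (it f n) (f i) =
        aeval (it g n) (g i - f i) + (aeval (it g n) (f i) - aeval (it f n) (f i)) := by
      rw [map_sub]; ring
    rw [h1]
    exact I.add_mem (((hf.congr h).it n).inv _ (h i)) (aeval_congr ih _)

theorem bas_congr {N e : ℕ} {k : Type} [Field k] {P : Po (N + 1) k} (hP : Irreducible P)
    {f g : Tup (N + 1) k} {θ Δ : Po (N + 1) k} (h : ∀ i, g i - f i ∈ Ideal.span {P})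
    (hB : Bas P f e θ Δ) : Bas P g e θ Δ := by
  refine ⟨hB.pos, hB.ne, fun u => ?_⟩
  obtain ⟨M, c, hc⟩ := hB.gen u
  refine ⟨M, c, ?_⟩
  have hq : ∀ q, Ideal.Quotient.mk (Ideal.span {P}) (aeval g q) =
      Ideal.Quotient.mk (Ideal.span {P}) (aeval f q) := fun q =>
    Ideal.Quotient.eq.mpr (aeval_congr h q)
  rw [← Ideal.mem_span_singleton, ← Ideal.Quotient.eq_zero_iff_mem] at hc ⊢
  rw [← hc, map_sub, map_sub, map_mul, map_mul, map_pow, map_pow, map_sum, map_sum, hq]
  congr 1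
  refine Finset.sum_congr rfl fun i _ => ?_
  rw [map_mul, map_mul, hq]

variable {Qb : Type} [Field Qb] [CharZero Qb] [IsAlgClosed Qb]

theorem pf_COR (hGDX : T_GDX Qb) (hJCX : T_JCX) (hCHH : T_CHH) (hALX : T_ALX) (hPEG : T_PEG)
    (hHGK : T_HGK) (hQb : Ftd Qb) (hPRX : T_PRX Qb)
    (hHNX : T_HNX Qb) (hNRX : T_NRX) (hINC : T_INC Qb) (hINB : T_INB Qb) (hPRM : T_PRM Qb) :
    T_COR Qb := by
  intro N r d P b F hN hP hrd hF hs hb hPb
  obtain ⟨F', W, hF', hcong, hW, hPW⟩ := hCHH N r d Qb P F hN hP hrd hF hs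
  have hcong' : ∀ i, F' i - F i ∈ Ideal.span {P} := fun i =>
    Ideal.mem_span_singleton.mpr (hcong i)
  have hs' : Slf (Ideal.span {P}) F' := hs.congr hcong'
  obtain ⟨p, P₀, k, a, H, h⟩ := exists_flo hGDX hJCX W hN hP hF' hs' hW hPW hb hPb
  refine ⟨k, h.hk, fun E θ Δ hB hcv g hg => ?_⟩
  have hitc := it_sub_mem hs hcong' k
  obtain ⟨z, hz, hgz, -, hind⟩ := cor_core hALX hPEG hHGK hQb hPRX hHNX hNRX hINC hP h hs'
    (hcv.congr hitc) (bas_congr hP.irr hitc hB) (up_not_dvd hP hg)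
  have hz' := (eval_pp P a (cO z)).mp hz
  set x : Fin (N + 1) → Qb := fun i => cO a i + ((p : ℕ) : Qb) ^ 2 * cO z i with hx
  have horb : ∀ n, (pmap F)^[n] x = (pmap F')^[n] x := fun n =>
    (iterate_congr hs.inv hcong' (zer_span.mpr hz') n).symm
  have horb2 : ∀ n, (pmap (it F k))^[n] x =
      fun i => cO a i + ((p : ℕ) : Qb) ^ 2 * (pmap (flQ p H))^[n] (cO z) i := by
    intro n
    rw [pmap_it_iterate, horb, hx, conj_orb h]
  have hvan : ∀ c, c ∈ van (it F k) x ↔
      aeval (lt (cO a) (((p : ℕ) : Qb) ^ 2)) c ∈ van (flQ p H) (cO z) := by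
    intro c
    rw [mem_van, mem_van]
    refine forall_congr' fun n => ?_
    rw [horb2, eval_lt]
  have hprime : (van (it F k) x).IsPrime := by
    have h1 : van (it F k) x = (van (flQ p H) (cO z)).comap
        (aeval (lt (cO a) (((p : ℕ) : Qb) ^ 2)) : Po (N + 1) Qb →ₐ[Qb] Po (N + 1) Qb) := by
      ext c
      rw [hvan, Ideal.mem_comap]
    have h2 := hPRM (N + 1) p H z h.hp
    rw [h1]
    exact Ideal.comap_isPrime _ _
  refine ⟨x, hz', fun n => ?_, ?_, hprime, ⟨fun c hc => van_aeval hc, fun c hc i => ?_⟩, ?_⟩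
  · rw [horb]
    exact h.avo n z
  · rw [eval_lt] at hgz
    exact hgz
  · rw [hvan]
    refine hind (fun i => aeval (lt (cO a) (((p : ℕ) : Qb) ^ 2)) (c i)) ?_ i
    rw [hvan, map_sum] at hc
    have h1 : ∀ i : Fin E, aeval (lt (cO a) (((p : ℕ) : Qb) ^ 2))
        (θ ^ (i : ℕ) * aeval (it F k) (c i)) -
        (aeval (lt (cO a) (((p : ℕ) : Qb) ^ 2)) θ) ^ (i : ℕ) *
          aeval (flQ p H) (aeval (lt (cO a) (((p : ℕ) : Qb) ^ 2)) (c i)) ∈
        van (flQ p H) (cO z) := by
      intro i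
      rw [conj_aeval h, map_mul, map_pow, ← mul_sub, ← map_sub]
      apply Ideal.mul_mem_left
      have h2 : aeval (it F k) (c i) - aeval (it F' k) (c i) ∈ Ideal.span {P} := by
        have h3 := aeval_congr hitc (c i)
        rw [← neg_mem_iff, neg_sub]
        exact h3
      rw [← hvan]
      intro n
      exact zer_iterate (hs.it k).inv (zer_span.mpr hz') n _ h2
    have h2 := Ideal.sum_mem (van (flQ p H) (cO z)) (t := Finset.univ) fun i _ => h1 i
    rw [Finset.sum_sub_distrib] at h2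
    have h3 := Ideal.sub_mem _ hc h2
    rw [sub_sub_cancel] at h3
    exact h3
  · intro M hM hMn s t
    obtain ⟨c, hc⟩ : ∃ c : Po (N + 1) (O p), c =
        C (a s + ((p : ℕ) : O p) ^ 2 * z s) * (C (a t) + C (((p : ℕ) : O p) ^ 2) * X t) -
        C (a t + ((p : ℕ) : O p) ^ 2 * z t) * (C (a s) + C (((p : ℕ) : O p) ^ 2) * X s) :=
      ⟨_, rfl⟩
    have hce : ∀ n, ((eval ((pmap (fl p H))^[n] z) c : O p) : Qb) =
        x s * (pmap (it F k))^[n] x t - x t * (pmap (it F k))^[n] x s := by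
      intro n
      have hev : eval ((pmap (fl p H))^[n] z) c =
          (a s + ((p : ℕ) : O p) ^ 2 * z s) *
            (a t + ((p : ℕ) : O p) ^ 2 * (pmap (fl p H))^[n] z t) -
          (a t + ((p : ℕ) : O p) ^ 2 * z t) *
            (a s + ((p : ℕ) : O p) ^ 2 * (pmap (fl p H))^[n] z s) := by
        rw [hc]
        simp only [map_sub, map_mul, map_add, eval_C, eval_X]
      rw [horb2, flQ_iterate, hev]
      have hp2 : ((((p : ℕ) : O p) ^ 2 : O p) : Qb) = ((p : ℕ) : Qb) ^ 2 := by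
        have := coe_p p
        change (O p).subtype (((p : ℕ) : O p) ^ 2) = _
        rw [map_pow, this]
      change (O p).subtype (_ - _) = _
      rw [map_sub, map_mul, map_mul, map_add, map_add, map_add, map_add, map_mul, map_mul, map_mul,
        map_mul]
      change ((a s : Qb) + ((((p : ℕ) : O p) ^ 2 : O p) : Qb) * (z s : Qb)) *
        ((a t : Qb) + ((((p : ℕ) : O p) ^ 2 : O p) : Qb) * (((pmap (fl p H))^[n] z t : O p) : Qb)) -
        ((a t : Qb) + ((((p : ℕ) : O p) ^ 2 : O p) : Qb) * (z t : Qb)) *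
        ((a s : Qb) + ((((p : ℕ) : O p) ^ 2 : O p) : Qb) * (((pmap (fl p H))^[n] z s : O p) : Qb)) =
        _
      rw [hp2]
      rfl
    have hz0 := hINB (N + 1) p H c z M h.hp hM (fun n => by
      apply Subtype.ext
      rw [hce]
      have := hMn n s t
      rw [this, sub_self]
      rfl)
    have h1 := hce 1
    rw [hz0 1] at h1
    rw [Function.iterate_one] at h1
    exact sub_eq_zero.mp (h1.symm.trans (by rfl))

end Pool.Agent.H18.VP
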