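import Pool.Agent.H18.VP.Targets

/-!
# Cancellation in the ideal of an orbit
-/

open MvPolynomial
open Pool.Agent.H12.ZD (pmap)
open Pool.Agent.H18.HIT Pool.Agent.H18.HX

set_option linter.unusedSectionVars false

namespace Pool.Agent.H18.VP

variable {Qb : Type} [Field Qb] [CharZero Qb] [IsAlgClosed Qb]

/-- the values of a scaled polynomial at the integral points -/
theorem eval_scale {N : ℕ} {p : Pl Qb} {q₀ : Po N (O p)} {q : Po N Qb} {a : Qb}
    (h : map (O p).subtype q₀ = C a * q) (w : Fin N → O p) :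
    ((eval w q₀ : O p) : Qb) = a * eval (cO w) q := by
  rw [← eval_cO, h, map_mul, eval_C]

theorem pf_INC (hINA : T_INA Qb) (hINB : T_INB Qb) : T_INC Qb := by
  intro N p H z h c hp hc hz
  obtain ⟨a, ha, h₀, hh₀⟩ := Pool.Agent.H18.VP.exists_scale p h
  obtain ⟨b, hb, c₀, hc₀⟩ := Pool.Agent.H18.VP.exists_scale p c
  have hne : ((eval z h₀ : O p) : Qb) ≠ 0 := by
    rw [eval_scale hh₀]
    exact mul_ne_zero ha hz
  have hη : 0 < v p ((eval z h₀ : O p) : Qb) := (Pool.Agent.H18.VP.v_pos p).2 hne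
  obtain ⟨s, hs⟩ := exists_pow_lt_of_lt_one hη (Pool.Agent.H18.VP.v_self_lt p)
  have hM : 1 ≤ (p : ℕ) ^ s := Nat.one_le_pow _ _ p.pr.2.pos
  have hvM : v p (((p : ℕ) ^ s : ℕ) : Qb) < v p ((eval z h₀ : O p) : Qb) := by
    rw [Nat.cast_pow, Pool.Agent.H18.VP.v_pow]
    exact hs
  have hvan : ∀ n, eval ((pmap (fl p H))^[(p : ℕ) ^ s * n] z) c₀ = 0 := by
    intro n
    have h1 : ((eval ((pmap (fl p H))^[(p : ℕ) ^ s * n] z) h₀ : O p) : Qb) ≠ 0 := by
      intro h0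
      have h2 := hINA N p H h₀ z ((p : ℕ) ^ s * n) hp
      rw [h0, zero_sub, Pool.Agent.H18.VP.v_neg, Nat.cast_mul, Pool.Agent.H18.VP.v_mul] at h2
      have h3 : v p (((p : ℕ) ^ s : ℕ) : Qb) * v p (n : Qb) ≤ v p (((p : ℕ) ^ s : ℕ) : Qb) :=
        mul_le_of_le_one_right (Pool.Agent.H18.VP.v_nonneg p _)
          (Pool.Agent.H18.VP.v_natCast_le p n)
      linarith
    rw [eval_scale hh₀] at h1
    have h2 := mem_van.1 hc ((p : ℕ) ^ s * n)
    rw [flQ_iterate, map_mul] at h2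
    have h3 : eval (cO ((pmap (fl p H))^[(p : ℕ) ^ s * n] z)) c = 0 :=
      (mul_eq_zero.1 h2).resolve_left (right_ne_zero_of_mul h1)
    apply Subtype.ext
    have h4 := eval_scale hc₀ ((pmap (fl p H))^[(p : ℕ) ^ s * n] z)
    rw [h3, mul_zero] at h4
    exact h4
  have hall := hINB N p H c₀ z ((p : ℕ) ^ s) hp hM hvan
  rw [mem_van]
  intro n
  rw [flQ_iterate]
  have h4 := eval_scale hc₀ ((pmap (fl p H))^[n] z)
  rw [hall n] at h4
  have h5 : b * eval (cO ((pmap (fl p H))^[n] z)) c = 0 := h4.symm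
  exact (mul_eq_zero.1 h5).resolve_left hb

end Pool.Agent.H18.VP
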