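import Pool.Agent.H18.VP.Targets

/-!
# Lifting of points
-/

open MvPolynomial
open Pool.Agent.H12.ZD (pmap)
open Pool.Agent.H18.HIT Pool.Agent.H18.HX

set_option linter.unusedSectionVars false

namespace Pool.Agent.H18.VP

variable {Qb : Type} [Field Qb] [CharZero Qb] [IsAlgClosed Qb]

/-- a monic polynomial over the valuation ring is a product of linear factors -/
theorem splits_O (p : Pl Qb) (n : ℕ) : ∀ g : Polynomial (O p), g.Monic → g.natDegree = n →
    ∃ s : Multiset (O p), g = (s.map fun t => Polynomial.X - Polynomial.C t).prod := by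
  induction n with
  | zero =>
    intro g hg hn
    refine ⟨0, ?_⟩
    rw [Multiset.map_zero, Multiset.prod_zero]
    exact hg.natDegree_eq_zero.1 hn
  | succ n ih =>
    intro g hg hn
    have hdeg : (g.map (algebraMap (O p) Qb)).degree ≠ 0 := by
      rw [hg.degree_map, Polynomial.degree_eq_natDegree hg.ne_zero, hn]
      exact_mod_cast Nat.succ_ne_zero n
    obtain ⟨τ, hτ⟩ := IsAlgClosed.exists_root _ hdeg
    have hint : IsIntegral (O p) τ := ⟨g, hg, by rwa [Polynomial.IsRoot.def,
      Polynomial.eval_map] at hτ⟩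
    obtain ⟨t, ht⟩ := IsIntegrallyClosed.isIntegral_iff.1 hint
    have hroot : g.IsRoot t := by
      rw [Polynomial.IsRoot.def, Polynomial.eval_map, ← ht, Polynomial.eval₂_at_apply] at hτ
      exact (map_eq_zero_iff _ (IsFractionRing.injective (O p) Qb)).1 hτ
    have hmul := Polynomial.mul_divByMonic_eq_iff_isRoot.2 hroot
    have hmon : (g /ₘ (Polynomial.X - Polynomial.C t)).Monic := by
      refine (Polynomial.monic_X_sub_C t).of_mul_monic_left ?_
      rw [hmul]
      exact hg
    have hnd : (g /ₘ (Polynomial.X - Polynomial.C t)).natDegree = n := by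
      rw [Polynomial.natDegree_divByMonic _ (Polynomial.monic_X_sub_C t), hn,
        Polynomial.natDegree_X_sub_C]
      rfl
    obtain ⟨s, hs⟩ := ih _ hmon hnd
    refine ⟨t ::ₘ s, ?_⟩
    rw [Multiset.map_cons, Multiset.prod_cons, ← hs, hmul]

theorem eval_multiset {R : Type} [CommRing R] (s : Multiset R) (b : R) :
    ((s.map fun t => Polynomial.X - Polynomial.C t).prod).eval b =
      (s.map fun t => b - t).prod := by
  induction s using Multiset.induction_on with
  | empty => simp
  | cons t s ih =>
    rw [Multiset.map_cons, Multiset.prod_cons, Multiset.map_cons, Multiset.prod_cons,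
      Polynomial.eval_mul, ih]
    simp

theorem exists_res_eq {R S : Type} [CommRing R] [CommRing S] [IsDomain S] (φ : R →+* S)
    (s : Multiset R) (b : R) (h : φ (s.map fun t => b - t).prod = 0) : ∃ t ∈ s, φ t = φ b := by
  induction s using Multiset.induction_on with
  | empty => simp at h
  | cons t s ih =>
    rw [Multiset.map_cons, Multiset.prod_cons, map_mul, mul_eq_zero] at h
    rcases h with h | h
    · refine ⟨t, Multiset.mem_cons_self t s, ?_⟩
      rw [map_sub, sub_eq_zero] at h
      exact h.symm
    · obtain ⟨t', ht', h'⟩ := ih h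
      exact ⟨t', Multiset.mem_cons_of_mem ht', h'⟩

theorem pf_LFX : T_LFX Qb := by
  intro N p P hP x hx
  have hsurj := Pool.Agent.H18.VP.residue_surjective p
  choose a' ha' using fun i => hsurj (x i)
  obtain ⟨s, hs⟩ := splits_O p _ ((finSuccEquiv (O p) N P).map
    (eval fun j : Fin N => a' j.succ)) (Polynomial.Monic.map _ hP) rfl
  have hev : ∀ y : O p, eval (Fin.cons y fun j : Fin N => a' j.succ : Fin (N + 1) → O p) P =
      (s.map fun t => y - t).prod := by
    intro y
    rw [eval_eq_eval_mv_eval', hs, eval_multiset]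
  have hcons : (Fin.cons (a' 0) fun j : Fin N => a' j.succ : Fin (N + 1) → O p) = a' :=
    Fin.cons_self_tail a'
  have h0 : IsLocalRing.residue (O p) (s.map fun t => a' 0 - t).prod = 0 := by
    rw [← hev, hcons, ← hx]
    have h1 : x = fun i => IsLocalRing.residue (O p) (a' i) := funext fun i => (ha' i).symm
    rw [h1, eval_map]
    exact eval₂_comp _ a' P
  obtain ⟨t, ht, ht'⟩ := exists_res_eq (IsLocalRing.residue (O p)) s (a' 0) h0
  refine ⟨Fin.cons t fun j : Fin N => a' j.succ, fun i => ?_, ?_⟩
  · refine Fin.cases ?_ (fun j => ?_) i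
    · rw [Fin.cons_zero, ht', ha']
    · rw [Fin.cons_succ, ha']
  · rw [hev]
    refine Multiset.prod_eq_zero ?_
    rw [Multiset.mem_map]
    exact ⟨t, ht, sub_self t⟩

end Pool.Agent.H18.VP
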