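import Pool.Agent.H18.VP.Targets

/-!
# A preimage in the closure of the forward orbit
-/

set_option autoImplicit false
set_option linter.unusedSectionVars false

open MvPolynomial Filter
open Pool.Agent.H12.ZD (pmap)
open Pool.Agent.H18.HIT Pool.Agent.H18.HX
open scoped Topology

namespace Pool.Agent.H18.VP

variable {Qb : Type} [Field Qb] [CharZero Qb] [IsAlgClosed Qb]

section

variable {N : ℕ} (p : Pl Qb)

theorem emb_eval (q : Po N Qb) (x : Fin N → Qb) :
    p.em (eval x q) = eval (fun i => p.em (x i)) (map (p.em) q) := by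
  rw [eval_map]
  have := eval₂_comp_left (p.em) (RingHom.id Qb) x q
  rw [RingHom.comp_id] at this
  exact this

/-- values of polynomials depend continuously on the point -/
theorem tendsto_eval {x : ℕ → Fin N → Qb} {y : Fin N → Qb}
    (h : ∀ i, Tendsto (fun j => p.em (x j i)) atTop (𝓝 (p.em (y i)))) (q : Po N Qb) :
    Tendsto (fun j => p.em (eval (x j) q)) atTop (𝓝 (p.em (eval y q))) := by
  simp only [emb_eval]
  exact ((MvPolynomial.continuous_eval (map (p.em) q)).tendsto _).comp (tendsto_pi_nhds.mpr h)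

theorem evp_eq_sum {k : Type} [CommRing k] (z : Fin N → k) (τ : k)
    (Φ : Polynomial (MvPolynomial (Fin N) k)) :
    evp z τ Φ = ∑ m ∈ Finset.range (Φ.natDegree + 1), eval z (Φ.coeff m) * τ ^ m := by
  rw [evp, Polynomial.eval_map, Polynomial.eval₂_eq_sum_range]

theorem tendsto_evp {x : ℕ → Fin N → Qb} {y : Fin N → Qb} {τ : ℕ → Qb} {σ : Qb}
    (h : ∀ i, Tendsto (fun j => p.em (x j i)) atTop (𝓝 (p.em (y i))))
    (hτ : Tendsto (fun j => p.em (τ j)) atTop (𝓝 (p.em σ)))
    (Φ : Polynomial (Po N Qb)) :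
    Tendsto (fun j => p.em (evp (x j) (τ j) Φ)) atTop (𝓝 (p.em (evp y σ Φ))) := by
  simp only [evp_eq_sum, map_sum, map_mul, map_pow]
  exact tendsto_finsetSum _ fun m _ => (tendsto_eval p h _).mul (hτ.pow m)

theorem bdd_eval (q : Po N Qb) : ∃ B : ℝ, ∀ x : Fin N → O p, ‖p.em (eval (cO x) q)‖ ≤ B := by
  obtain ⟨c, hc, q₀, hq⟩ := exists_scale p q
  refine ⟨(v p c)⁻¹, fun x => ?_⟩
  have h1 : ((eval x q₀ : O p) : Qb) = c * eval (cO x) q := by
    rw [← eval_cO, hq, map_mul, eval_C]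
  have h2 : v p (c * eval (cO x) q) ≤ 1 := by
    rw [← h1]
    exact (eval x q₀ : O p).2
  rw [Pool.Agent.H18.VP.v_mul] at h2
  have h3 : 0 < v p c := (Pool.Agent.H18.VP.v_pos p).mpr hc
  rw [← one_div, le_div_iff₀ h3, mul_comm]
  exact h2


end

theorem PRX_eval_aeval {L N : ℕ} {k : Type} [CommRing k] (g : Fin N → Po L k) (q : Po N k)
    (x : Fin L → k) : eval x (aeval g q) = eval (fun j => eval x (g j)) q := by
  induction q using MvPolynomial.induction_on with
  | C a => rw [aeval_C, algebraMap_eq, eval_C, eval_C]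
  | add p q hp hq => rw [map_add, map_add, map_add, hp, hq]
  | mul_X p i hp => rw [map_mul, map_mul, map_mul, aeval_X, eval_X, hp]

theorem PRX_eval_evg {L N : ℕ} {k : Type} [CommRing k] (g : Fin N → Po L k) (θ : Po L k)
    (Φ : Polynomial (Po N k)) (x : Fin L → k) :
    eval x (evg g θ Φ) = evp (fun j => eval x (g j)) (eval x θ) Φ := by
  rw [evg, evp, Polynomial.eval_map, Polynomial.hom_eval₂]
  congr 1
  apply RingHom.ext
  intro q
  exact PRX_eval_aeval g q x

theorem pf_PRX (hINA : T_INA Qb) : T_PRX Qb := by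
  classical
  intro L N p H ι z θ Φ Δ R hp hmon hroot hcoord hΔ
  obtain ⟨a, ha⟩ : ∃ a : ℕ → Fin L → O p, a = fun j =>
    (pmap (fl p H))^[(p : ℕ) ^ j - 1] z := ⟨_, rfl⟩
  obtain ⟨b, hb⟩ : ∃ b : ℕ → Fin L → O p, b = fun j =>
    (pmap (fl p H))^[(p : ℕ) ^ j] z := ⟨_, rfl⟩
  have hab : ∀ j, pmap (fl p H) (a j) = b j := by
    intro j
    rw [ha, hb]
    simp only
    rw [← Function.iterate_succ_apply' (pmap (fl p H))]
    have : 0 < (p : ℕ) ^ j := pow_pos p.pr.2.pos j
    congr 1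
    omega
  have habQ : ∀ j, pmap (flQ p H) (cO (a j)) = cO (b j) := by
    intro j
    rw [← hab j]
    exact pmap_cO (fl p H) (a j)
  have hvan : ∀ c ∈ van (flQ p H) (cO z), ∀ j, eval (cO (a j)) c = 0 := by
    intro c hc j
    have := hc ((p : ℕ) ^ j - 1)
    rw [flQ_iterate] at this
    rw [ha]
    exact this
  have hb0 : Tendsto (fun j : ℕ => v p ((((p : ℕ) ^ j : ℕ)) : Qb)) atTop (𝓝 0) := by
    have h1 : (fun j : ℕ => v p ((((p : ℕ) ^ j : ℕ)) : Qb)) =
        fun j : ℕ => (v p ((p : ℕ) : Qb)) ^ j := by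
      funext j
      rw [Nat.cast_pow, Pool.Agent.H18.VP.v_pow]
    rw [h1]
    exact tendsto_pow_atTop_nhds_zero_of_lt_one (Pool.Agent.H18.VP.v_nonneg p _)
      (Pool.Agent.H18.VP.v_self_lt p)
  have hbz : ∀ i, Tendsto (fun j => p.em (cO (b j) i)) atTop (𝓝 (p.em (cO z i))) := by
    intro i
    rw [tendsto_iff_norm_sub_tendsto_zero]
    refine squeeze_zero (fun j => norm_nonneg _) (fun j => ?_) hb0
    have h1 := hINA L p H (X i) z ((p : ℕ) ^ j) hp
    rw [eval_X, eval_X] at h1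
    rw [← map_sub, hb]
    exact h1
  -- the projections
  obtain ⟨B', hB'⟩ : ∃ B' : ℕ → Fin N → Qb, B' = fun j i => cO (b j) (ι i) := ⟨_, rfl⟩
  obtain ⟨Z', hZ'⟩ : ∃ Z' : Fin N → Qb, Z' = fun i => cO z (ι i) := ⟨_, rfl⟩
  rw [← hZ'] at hΔ
  have hBZ : ∀ i, Tendsto (fun j => p.em (B' j i)) atTop (𝓝 (p.em (Z' i))) := by
    intro i
    rw [hB', hZ']
    exact hbz (ι i)
  have hgB : ∀ j, (fun i => eval (cO (a j)) (flQ p H (ι i))) = B' j := by
    intro j
    rw [hB']
    funext i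
    exact congrFun (habQ j) (ι i)
  obtain ⟨τ, hτ⟩ : ∃ τ : ℕ → Qb, τ = fun j => eval (cO (a j)) θ := ⟨_, rfl⟩
  have hΦτ : ∀ j, evp (B' j) (τ j) Φ = 0 := by
    intro j
    have h1 := hvan _ hroot j
    rw [PRX_eval_evg, hgB] at h1
    rw [hτ]
    exact h1
  obtain ⟨B, hB⟩ := bdd_eval p θ
  have hτB : ∀ j, ‖p.em (τ j)‖ ≤ B := by
    intro j
    rw [hτ]
    exact hB (a j)
  have hlim : Tendsto (fun j => p.em (evp Z' (τ j) Φ)) atTop (𝓝 0) := by
    have h1 : ∀ j, p.em (evp Z' (τ j) Φ) = ∑ m ∈ Finset.range (Φ.natDegree + 1),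
        (p.em (eval Z' (Φ.coeff m)) - p.em (eval (B' j) (Φ.coeff m))) *
          p.em (τ j) ^ m := by
      intro j
      have h2 := hΦτ j
      have h3 : p.em (evp Z' (τ j) Φ) = p.em (evp Z' (τ j) Φ) -
          p.em (evp (B' j) (τ j) Φ) := by rw [h2, map_zero, sub_zero]
      rw [h3, evp_eq_sum, evp_eq_sum, map_sum, map_sum, ← Finset.sum_sub_distrib]
      refine Finset.sum_congr rfl fun m _ => ?_
      rw [map_mul, map_mul, map_pow, sub_mul]
    rw [funext h1, ← Finset.sum_const_zero (s := Finset.range (Φ.natDegree + 1))]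
    apply tendsto_finsetSum
    intro m _
    have h4 : Tendsto (fun j => p.em (eval Z' (Φ.coeff m)) -
        p.em (eval (B' j) (Φ.coeff m))) atTop (𝓝 0) := by
      have := (tendsto_const_nhds (x := p.em (eval Z' (Φ.coeff m)))
        (f := (atTop : Filter ℕ))).sub (tendsto_eval p hBZ (Φ.coeff m))
      rwa [sub_self] at this
    refine h4.zero_mul_isBoundedUnder_le ?_
    refine ⟨B ^ m, ?_⟩
    rw [eventually_map]
    refine Eventually.of_forall fun j => ?_
    simp only [Function.comp_apply, norm_pow]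
    exact pow_le_pow_left₀ (norm_nonneg _) (hτB j) m
  -- a root which is a cluster point
  obtain ⟨Ψ, hΨ⟩ : ∃ Ψ : Polynomial Qb, Ψ = Φ.map (eval Z') := ⟨_, rfl⟩
  have hΨm : Ψ.Monic := by
    rw [hΨ]
    exact hmon.map _
  have hprod : ∀ j, ‖p.em (evp Z' (τ j) Φ)‖ =
      (Ψ.roots.map fun r => ‖p.em (τ j) - p.em r‖).prod := by
    intro j
    rw [evp, ← hΨ, (IsAlgClosed.splits Ψ).eval_eq_prod_roots_of_monic hΨm, map_multiset_prod,
      Multiset.map_map, ← coe_nnnorm]
    have : ∀ s : Multiset Qb, ‖(s.map (p.em ∘ fun r => τ j - r)).prod‖ =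
        (s.map fun r => ‖p.em (τ j) - p.em r‖).prod := by
      intro s
      induction s using Multiset.induction_on with
      | empty => simp
      | cons x s ih =>
        rw [Multiset.map_cons, Multiset.prod_cons, norm_mul, ih, Multiset.map_cons,
          Multiset.prod_cons, Function.comp_apply, map_sub]
    exact this _
  obtain ⟨r, hr⟩ : ∃ r : Qb, MapClusterPt (p.em r) atTop fun j => p.em (τ j) := by
    by_contra hall
    push Not at hall
    have h1 : ∀ r : Qb, ∃ η : ℝ, 0 < η ∧ ∀ᶠ j in atTop, η ≤ ‖p.em (τ j) - p.em r‖ := by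
      intro r
      have h2 := hall r
      rw [mapClusterPt_iff_frequently] at h2
      push Not at h2
      obtain ⟨s, hs, hs2⟩ := h2
      obtain ⟨η, hη, hball⟩ := Metric.mem_nhds_iff.mp hs
      refine ⟨η, hη, ?_⟩
      filter_upwards [hs2] with j hj
      by_contra hlt
      apply hj
      apply hball
      rw [Metric.mem_ball, dist_eq_norm]
      exact not_le.mp hlt
    choose η hη hev using h1
    have h3 : ∀ᶠ j in atTop, ∀ r ∈ Ψ.roots.toFinset, η r ≤ ‖p.em (τ j) - p.em r‖ :=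
      (Filter.eventually_all_finset _).mpr fun r _ => hev r
    have h4 : 0 < (Ψ.roots.map η).prod := by
      apply Multiset.prod_pos
      intro x hx
      obtain ⟨r, -, rfl⟩ := Multiset.mem_map.mp hx
      exact hη r
    have h5 : Tendsto (fun j => ‖p.em (evp Z' (τ j) Φ)‖) atTop (𝓝 0) := by
      have := hlim.norm
      rwa [norm_zero] at this
    have h6 := h5.eventually_lt_const h4
    obtain ⟨j, hj3, hj6⟩ := (h3.and h6).exists
    rw [hprod j] at hj6
    refine absurd hj6 (not_lt.mpr ?_)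
    apply Multiset.prod_map_le_prod_map₀
    · intro r _
      exact (hη r).le
    · intro r hr
      exact hj3 r (Multiset.mem_toFinset.mpr hr)
  obtain ⟨φ, hφ, hφr⟩ := hr.tendsto_subseq
  have hφr' : Tendsto (fun n => p.em (τ (φ n))) atTop (𝓝 (p.em r)) := hφr
  have hbz' : ∀ i, Tendsto (fun n => p.em (cO (b (φ n)) i)) atTop (𝓝 (p.em (cO z i))) :=
    fun i => (hbz i).comp hφ.tendsto_atTop
  have hBZ' : ∀ i, Tendsto (fun n => p.em (B' (φ n) i)) atTop (𝓝 (p.em (Z' i))) :=
    fun i => (hBZ i).comp hφ.tendsto_atTop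
  have hΔe : p.em (eval Z' Δ) ≠ 0 := by
    intro h
    exact hΔ (p.em.injective (by rw [h, map_zero]))
  obtain ⟨P, hP⟩ : ∃ P : Fin L → Qb, P = fun i => evp Z' r (R i) / eval Z' Δ := ⟨_, rfl⟩
  have haP : ∀ i, Tendsto (fun n => p.em (cO (a (φ n)) i)) atTop (𝓝 (p.em (P i))) := by
    intro i
    have h1 : Tendsto (fun n => p.em (evp (B' (φ n)) (τ (φ n)) (R i)) /
        p.em (eval (B' (φ n)) Δ)) atTop (𝓝 (p.em (P i))) := by
      rw [hP]
      simp only
      rw [map_div₀]
      exact (tendsto_evp p hBZ' hφr' (R i)).div (tendsto_eval p hBZ' Δ) hΔe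
    refine h1.congr' ?_
    have h2 : ∀ᶠ n in atTop, p.em (eval (B' (φ n)) Δ) ≠ 0 :=
      (tendsto_eval p hBZ' Δ).eventually_ne hΔe
    filter_upwards [h2] with n hn
    rw [div_eq_iff hn]
    have h3 := hvan _ (hcoord i) (φ n)
    rw [map_sub, map_mul, eval_X, PRX_eval_evg, PRX_eval_aeval, hgB, sub_eq_zero] at h3
    have h4 := congrArg p.em h3
    rw [map_mul] at h4
    rw [hτ]
    simp only
    rw [← h4]
    ring
  have hP1 : ∀ i, v p (P i) ≤ 1 := by
    intro i
    refine le_of_tendsto (haP i).norm (Eventually.of_forall fun n => ?_)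
    exact (a (φ n) i).2
  refine ⟨fun i => ⟨P i, hP1 i⟩, ?_, ?_⟩
  · apply cO_injective
    have h1 : cO (pmap (fl p H) fun i => (⟨P i, hP1 i⟩ : O p)) = pmap (flQ p H) P :=
      (pmap_cO (fl p H) fun i => (⟨P i, hP1 i⟩ : O p)).symm
    rw [h1]
    funext i
    apply p.em.injective
    have h2 := tendsto_eval p haP (flQ p H i)
    have h3 : ∀ n, eval (cO (a (φ n))) (flQ p H i) = cO (b (φ n)) i := by
      intro n
      exact congrFun (habQ (φ n)) i
    simp only [h3] at h2
    exact tendsto_nhds_unique h2 (hbz' i)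
  · intro c hc
    have h2 := tendsto_eval p haP c
    simp only [hvan c hc, map_zero] at h2
    have h3 := tendsto_nhds_unique h2 tendsto_const_nhds
    exact p.em.injective (by rw [map_zero]; exact h3)

end Pool.Agent.H18.VP
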