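import Pool.Agent.H18.VP.Targets
import Pool.Agent.H8.HIT.P1

/-!
# The flow near a good residue disc
-/

set_option linter.unusedSectionVars false

open MvPolynomial IsLocalRing
open Pool.Agent.H12.ZD (pmap pmap_iterate_map)
open Pool.Agent.H18.HIT
open Pool.Agent.H8.HZ hiding exists_field_itr dvd_of_v_le exists_recurrent orbit_close coe_natCast_O disc_avoid jac

namespace Pool.Agent.H18.VP

variable {Qb : Type} [Field Qb] [CharZero Qb] [IsAlgClosed Qb]

/-- the orbit and the jacobian matrices of the iterates lie over a finite extension of `ℚ_p` -/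
theorem exists_field_itr {N : ℕ} (p : Pl Qb) (f : Fin N → MvPolynomial (Fin N) Qb)
    (a : Fin N → Qb) :
    ∃ W : IntermediateField ℚ_[p.pr] (PadicAlgCl p.pr), FiniteDimensional ℚ_[p.pr] W ∧
      (∀ n i, (pmap f)^[n] a i ∈ sbf p W) ∧ ∀ n i j, Dm (itr f n) a i j ∈ sbf p W := by
  classical
  obtain ⟨W, hfin, hK⟩ := exists_sbf p
    ((Finset.univ.biUnion fun i => (f i).coeffs) ∪ Finset.univ.image a)
  refine ⟨W, hfin, ?_⟩
  have h1 : ∀ i, f i ∈ Set.range (map (sbf p W).subtype) := by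
    intro i
    rw [mem_range_map_iff_coeffs_subset]
    intro x hx
    have h2 : x ∈ sbf p W := hK x (Finset.mem_union_left _ (Finset.mem_biUnion.mpr
      ⟨i, Finset.mem_univ i, hx⟩))
    exact ⟨⟨x, h2⟩, rfl⟩
  choose fK hfK using h1
  have h2 : ∀ i, a i ∈ sbf p W := fun i =>
    hK _ (Finset.mem_union_right _ (Finset.mem_image_of_mem a (Finset.mem_univ i)))
  set aK : Fin N → sbf p W := fun i => ⟨a i, h2 i⟩ with haK
  have hf : f = fun i => map (sbf p W).subtype (fK i) :=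
    funext fun i => (hfK i).symm
  have ha : a = fun i => (sbf p W).subtype (aK i) := rfl
  refine ⟨fun n i => ?_, fun n i j => ?_⟩
  · rw [hf, ha, pmap_iterate_map]
    exact ((pmap fK)^[n] aK i).2
  · rw [hf, ha, itr_map, Dm_map]
    exact (Dm (itr fK n) aK i j).2

/-- over the valuation ring: small means divisible -/
theorem dvd_of_v_le (p : Pl Qb) {x y : O p} (hy : (y : Qb) ≠ 0)
    (h : v p (x : Qb) ≤ v p (y : Qb)) : ∃ c : O p, x = y * c := by
  have hy' := (v_pos p).mpr hy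
  refine ⟨⟨(x : Qb) / y, ?_⟩, ?_⟩
  · rw [mem_O, div_eq_mul_inv, v_mul, v_inv, ← div_eq_mul_inv]
    exact (div_le_one hy').mpr h
  · apply Subtype.ext
    change (x : Qb) = (y : Qb) * ((x : Qb) / y)
    field_simp

theorem exists_recurrent {N : ℕ} (p : Pl Qb) (f₀ : Fin N → MvPolynomial (Fin N) (O p))
    (a : Fin N → O p)
    (hj : ∀ n, v p ((eval ((pmap f₀)^[n] a) (jac f₀) : O p) : Qb) = 1) :
    ∃ (i k : ℕ), 1 ≤ k ∧ (∀ l, ∃ c : O p, (pmap f₀)^[k] ((pmap f₀)^[i] a) l =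
        (pmap f₀)^[i] a l + ((p : ℕ) : O p) ^ 3 * c) ∧
      ∀ l m, ∃ c : O p, Dm (itr f₀ k) ((pmap f₀)^[i] a) l m =
        (1 : Matrix (Fin N) (Fin N) (O p)) l m + ((p : ℕ) : O p) ^ 3 * c := by
  classical
  set f : Fin N → MvPolynomial (Fin N) Qb :=
    fun i => map (O p).subtype (f₀ i) with hf
  have hpc : (((p : ℕ) : O p) : Qb) = ((p : ℕ) : Qb) :=
    map_natCast (O p).subtype (p : ℕ)
  have hp0 : ((((p : ℕ) : O p) ^ 3 : O p) : Qb) ≠ 0 := by
    have h1 : ((((p : ℕ) : O p) ^ 3 : O p) : Qb) =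
        (((p : ℕ) : O p) : Qb) ^ 3 := map_pow (O p).subtype _ 3
    rw [h1, hpc]
    apply pow_ne_zero
    exact_mod_cast p.pr.2.ne_zero
  obtain ⟨K, hfin, hK1, hK2⟩ := exists_field_itr p f (fun i => (a i : Qb))
  have h1 : ∀ n i, ((pmap f₀)^[n] a i : Qb) =
      (pmap f)^[n] (fun i => (a i : Qb)) i := by
    intro n i
    have := pmap_iterate_map (O p).subtype f₀ a n
    exact (congrFun this i).symm
  have h2 : ∀ n i j, ((Dm (itr f₀ n) a i j : O p) : Qb) =
      Dm (itr f n) (fun i => (a i : Qb)) i j := by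
    intro n i j
    have := Dm_map (O p).subtype (itr f₀ n) a i j
    rw [← itr_map] at this
    exact this.symm
  obtain ⟨i, j, hij, hclose⟩ := exists_close p (ι := Fin N ⊕ (Fin N × Fin N)) K
    (fun n => Sum.elim (fun l => ((pmap f₀)^[n] a l : Qb))
      (fun lm => ((Dm (itr f₀ n) a lm.1 lm.2 : O p) : Qb)))
    (by
      rintro n (l | ⟨l, m⟩)
      · rw [Sum.elim_inl, h1]; exact hK1 n l
      · rw [Sum.elim_inr, h2]; exact hK2 n l m)
    (by
      rintro n (l | ⟨l, m⟩)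
      · exact ((pmap f₀)^[n] a l).2
      · exact (Dm (itr f₀ n) a l m).2)
    ((v_pos p).mpr hp0)
  obtain ⟨k, rfl⟩ : ∃ k, j = k + i := ⟨j - i, by omega⟩
  refine ⟨i, k, by omega, ?_, ?_⟩
  · intro l
    have h3 := hclose (Sum.inl l)
    rw [Sum.elim_inl, Sum.elim_inl, v_sub_comm] at h3
    obtain ⟨c, hc⟩ := dvd_of_v_le p (x := (pmap f₀)^[k + i] a l - (pmap f₀)^[i] a l)
      (y := ((p : ℕ) : O p) ^ 3) hp0 h3.le
    refine ⟨c, ?_⟩
    rw [← hc, Function.iterate_add_apply, add_sub_cancel]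
  · -- the matrices
    have h3 : ∀ l m, ∃ c : O p, Dm (itr f₀ (k + i)) a l m - Dm (itr f₀ i) a l m =
        ((p : ℕ) : O p) ^ 3 * c := by
      intro l m
      have h4 := hclose (Sum.inr (l, m))
      rw [Sum.elim_inr, Sum.elim_inr, v_sub_comm] at h4
      exact dvd_of_v_le p (x := Dm (itr f₀ (k + i)) a l m - Dm (itr f₀ i) a l m)
        (y := ((p : ℕ) : O p) ^ 3) hp0 h4.le
    choose c hc using h3
    have hdet : ∀ n, IsUnit (Dm (itr f₀ n) a).det := by
      intro n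
      induction n with
      | zero => rw [itr, Dm_X, Matrix.det_one]; exact isUnit_one
      | succ n ih =>
        rw [Dm_itr_succ, Matrix.det_mul]
        apply IsUnit.mul _ ih
        rw [det_Dm, isUnit_O]
        exact hj n
    have h4 : Dm (itr f₀ k) ((pmap f₀)^[i] a) =
        1 + (((p : ℕ) : O p) ^ 3) • (Matrix.of c * (Dm (itr f₀ i) a)⁻¹) := by
      have h5 : Dm (itr f₀ (k + i)) a = Dm (itr f₀ i) a + (((p : ℕ) : O p) ^ 3) • Matrix.of c := by
        ext l m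
        rw [Matrix.add_apply, Matrix.smul_apply, Matrix.of_apply, smul_eq_mul, ← hc,
          add_sub_cancel]
      rw [Dm_itr_add] at h5
      have h6 : Dm (itr f₀ k) ((pmap f₀)^[i] a) * Dm (itr f₀ i) a * (Dm (itr f₀ i) a)⁻¹ =
          (Dm (itr f₀ i) a + (((p : ℕ) : O p) ^ 3) • Matrix.of c) * (Dm (itr f₀ i) a)⁻¹ := by
        rw [h5]
      rw [Matrix.mul_assoc, Matrix.mul_nonsing_inv _ (hdet i), mul_one, add_mul,
        Matrix.mul_nonsing_inv _ (hdet i), Matrix.smul_mul] at h6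
      exact h6
    intro l m
    refine ⟨(Matrix.of c * (Dm (itr f₀ i) a)⁻¹) l m, ?_⟩
    rw [h4, Matrix.add_apply, Matrix.smul_apply, smul_eq_mul]

/-- points of a small disc have orbits close to each other -/
theorem orbit_close {N : ℕ} (p : Pl Qb) (f₀ : Fin N → MvPolynomial (Fin N) (O p))
    (x y : Fin N → O p) (h : ∀ l, v p ((x l : Qb) - y l) < 1) (n : ℕ) :
    ∀ l, v p (((pmap f₀)^[n] x l : Qb) - (pmap f₀)^[n] y l) < 1 := by
  induction n with
  | zero => exact h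
  | succ n ih =>
    intro l
    rw [Function.iterate_succ_apply', Function.iterate_succ_apply']
    exact close_eval p (f₀ l) _ _ one_pos ih

theorem coe_natCast_O (p : Pl Qb) (n : ℕ) :
    ((n : O p) : Qb) = (n : Qb) :=
  map_natCast (O p).subtype n

theorem disc_avoid {N : ℕ} (p : Pl Qb) (f₀ : Fin N → MvPolynomial (Fin N) (O p))
    (b₀ : MvPolynomial (Fin N) (O p)) (a : Fin N → O p) (n : ℕ)
    (h : v p ((eval ((pmap f₀)^[n] a) b₀ : O p) : Qb) = 1) (z : Fin N → O p) :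
    eval ((pmap f₀)^[n] (fun i => a i + ((p : ℕ) : O p) ^ 2 * z i)) b₀ ≠ 0 := by
  intro h0
  have h2 : ∀ l, v p ((((fun i => a i + ((p : ℕ) : O p) ^ 2 * z i) l : O p) :
      Qb) - (a l : Qb)) < 1 := by
    intro l
    have h3 : ((a l + ((p : ℕ) : O p) ^ 2 * z l : O p) : Qb) -
        (a l : Qb) =
        ((p : ℕ) : Qb) ^ 2 * (z l : Qb) := by
      have h4 : ((a l + ((p : ℕ) : O p) ^ 2 * z l : O p) : Qb) =
          (a l : Qb) + (((p : ℕ) : O p) : Qb) ^ 2 *
            (z l : Qb) := rfl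
      rw [h4, coe_natCast_O, add_sub_cancel_left]
    change v p (((a l + ((p : ℕ) : O p) ^ 2 * z l : O p) : Qb) -
        (a l : Qb)) < 1
    rw [h3, v_mul, v_pow]
    calc v p ((p : ℕ) : Qb) ^ 2 * v p (z l : Qb)
        ≤ v p ((p : ℕ) : Qb) ^ 2 * 1 :=
          mul_le_mul_of_nonneg_left (z l).2 (pow_nonneg (v_nonneg p _) _)
      _ < 1 := by
          rw [mul_one]
          exact pow_lt_one₀ (v_nonneg p _) (v_self_lt p) (by norm_num)
  have h3 := close_eval p b₀ _ _ one_pos (orbit_close p f₀ _ _ h2 n)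
  have h4 : ((eval ((pmap f₀)^[n] (fun i => a i + ((p : ℕ) : O p) ^ 2 * z i)) b₀ : O p) :
      Qb) = 0 := by
    rw [h0]
    rfl
  rw [h4, zero_sub, v_neg, h] at h3
  exact lt_irrefl _ h3


theorem pf_FLW : T_FLW Qb := by
  intro N p f₀ a hj
  obtain ⟨i₀, k, hk, hrec, hmat⟩ := exists_recurrent p f₀ a hj
  obtain ⟨H, hH⟩ := Pool.Agent.H8.HZ.flow_identity (Pool.Agent.H8.HZ.itr f₀ k)
    ((pmap f₀)^[i₀] a) ((p : ℕ) : O p)
    (fun i => by
      obtain ⟨c, hc⟩ := hrec i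
      refine ⟨c, ?_⟩
      rw [← hc, ← Pool.Agent.H8.HZ.pmap_itr f₀ k]
      rfl) hmat
  refine ⟨k, i₀, H, hk, fun i => ?_⟩
  rw [← Pool.Agent.H8.HIT.itr_eq]
  exact hH i

end Pool.Agent.H18.VP
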