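import Pool.Agent.H8.HX.GDX
import Pool.Agent.H13.HX.TargetsK
import Pool.Agent.H18.VP.Targets

/-!
# Points of a hypersurface with a good orbit
-/

set_option linter.unusedSectionVars false

open MvPolynomial IsLocalRing
open Pool.Agent.H12.ZD (pmap)
open Pool.Agent.H18.HIT Pool.Agent.H18.HX
open Pool.Agent.H8.HX (natDegree_pos_of_irr not_dvd_cc)

namespace Pool.Agent.H18.VP

variable {Qb : Type} [Field Qb] [CharZero Qb] [IsAlgClosed Qb]

/-- polynomials with Frobenius-fixed coefficients -/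
theorem map_frob_eq {N : ℕ} {κ : Type} [Field κ] (p : ℕ) [Fact p.Prime] [CharP κ p] (t : ℕ)
    (g : Po N κ) (h : ∀ u, coeff u g ^ (p ^ t) = coeff u g) :
    map (iterateFrobenius κ p t) g = g := by
  ext u
  rw [coeff_map, iterateFrobenius_def]
  exact h u

/-- divisibility by `P` over the valuation ring -/
theorem dvd_of_map_dvd {N : ℕ} (p : Pl Qb) (P₀ w₀ : Po (N + 1) (O p)) (hm : Mny P₀)
    (h : map (O p).subtype P₀ ∣ map (O p).subtype w₀) : P₀ ∣ w₀ := by
  rw [Pool.Agent.H78.HX.dvd_iff_rm _ _ (Pool.Agent.H78.HX.Mny_map _ P₀ hm),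
    Pool.Agent.H78.HX.rm_map _ P₀ w₀ hm] at h
  rw [Pool.Agent.H78.HX.dvd_iff_rm _ _ hm]
  apply Polynomial.map_injective _ (map_injective _ (O p).subtype_injective)
  rw [h, Polynomial.map_zero]

/-- lifting to the valuation ring -/
theorem exists_lift_O {N : ℕ} (p : Pl Qb) (q : Po N Qb) (h : ∀ x ∈ q.coeffs, v p x = 1) :
    ∃ q₀ : Po N (O p), map (O p).subtype q₀ = q := by
  have h1 : q ∈ Set.range (map (O p).subtype) := by
    rw [mem_range_map_iff_coeffs_subset]
    intro x hx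
    exact ⟨⟨x, (h x hx).le⟩, rfl⟩
  exact h1

theorem pf_GDX (hPLC : T_PLC) (hQb : Ftd Qb) (hWPO : T_WPO) (hIND : T_IND) (hMPW : T_MPW)
    (hFRY : T_FRY) (hNDS : Pool.Agent.H13.HX.T_NDS) (hLFX : T_LFX Qb) : T_GDX Qb := by
  intro N r d M P F s hN hP hF hS hs
  classical
  have hdd : DecidableEq (Po (N + 1) Qb) := Classical.decEq _
  set b : Po (N + 1) Qb := ∏ g ∈ s, g with hbdef
  have hbP : ¬ P ∣ b := by
    intro h
    obtain ⟨g, hg, h1⟩ := (hP.irr.prime.dvd_finsetProd_iff _).mp h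
    exact (hs g hg).2 h1
  -- the degree of the product
  have hbh : ∃ m, b.IsHomogeneous m := by
    have h1 : ∀ g : Po (N + 1) Qb, ∃ m : ℕ, g ∈ s → g.IsHomogeneous m := by
      intro g
      by_cases hg : g ∈ s
      · obtain ⟨m, hm⟩ := (hs g hg).1
        exact ⟨m, fun _ => hm⟩
      · exact ⟨0, fun h => absurd h hg⟩
    choose m hm using h1
    exact ⟨∑ g ∈ s, m g, IsHomogeneous.prod s (fun g => g) m fun g hg => hm g hg⟩
  obtain ⟨m, hbm⟩ := hbh
  -- the degree of P
  have hr1 : 1 ≤ r := by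
    rcases Nat.eq_zero_or_pos r with h | h
    · exfalso
      have h1 : P.totalDegree = 0 := by
        have h2 := hP.hom.totalDegree_le
        omega
      have h2 := natDegree_pos_of_irr hP.mon hP.irr
      rw [natDegree_finSuccEquiv] at h2
      have h3 := degreeOf_le_totalDegree P 0
      omega
    · exact h
  have hcP := not_dvd_cc hP.mon hP.irr hS hbP
  obtain ⟨D, hD⟩ := hWPO N Qb P hP.irr hP.mon (Ix N r) (fun l => gl P F (cc P F b) l)
    (hIND N r Qb P F (cc P F b) hP hS hcP)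
  change ¬ P ∣ wr P F (cc P F b) D at hD
  obtain ⟨ε, hε, hε'⟩ := hNDS N Qb P (wr P F (cc P F b) D) hP.mon hD
  set U : Finset Qb := {ε} ∪ (P.coeffs ∪ ((Finset.univ.biUnion fun i => (F i).coeffs) ∪
    s.biUnion fun g => g.coeffs)) with hU
  have hU0 : ∀ x ∈ U, x ≠ 0 := by
    intro x hx
    have hc : ∀ q : Po (N + 1) Qb, x ∈ q.coeffs → x ≠ 0 := by
      intro q hq
      rw [mem_coeffs_iff] at hq
      obtain ⟨m, hm, rfl⟩ := hq
      exact mem_support_iff.mp hm
    simp only [hU, Finset.mem_union, Finset.mem_singleton, Finset.mem_biUnion] at hx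
    rcases hx with rfl | hx | ⟨i, -, hx⟩ | ⟨g, -, hx⟩
    · exact hε
    · exact hc P hx
    · exact hc _ hx
    · exact hc g hx
  obtain ⟨p, hpM, hp1⟩ := hPLC Qb hQb U M hU0
  obtain ⟨P₀, hP₀⟩ := exists_lift_O p P fun x hx => hp1 x
    (Finset.mem_union_right _ (Finset.mem_union_left _ hx))
  have hF₀' : ∀ i, ∃ q₀ : Po (N + 1) (O p), map (O p).subtype q₀ = F i := fun i =>
    exists_lift_O p (F i) fun x hx => hp1 x (Finset.mem_union_right _ (Finset.mem_union_right _
      (Finset.mem_union_left _ (Finset.mem_biUnion.mpr ⟨i, Finset.mem_univ i, hx⟩))))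
  choose F₀ hF₀'' using hF₀'
  have hF₀ : (fun i => map (O p).subtype (F₀ i)) = F := funext hF₀''
  have hlf : ∀ g : Po (N + 1) Qb, ∃ g₀ : Po (N + 1) (O p), g ∈ s →
      map (O p).subtype g₀ = g := by
    intro g
    by_cases hg : g ∈ s
    · obtain ⟨g₀, hg₀⟩ := exists_lift_O p g fun x hx => hp1 x
        (Finset.mem_union_right _ (Finset.mem_union_right _
          (Finset.mem_union_right _ (Finset.mem_biUnion.mpr ⟨g, hg, hx⟩))))
      exact ⟨g₀, fun _ => hg₀⟩
    · exact ⟨0, fun h => absurd h hg⟩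
  choose lf hlf using hlf
  have hεv : v p ε = 1 := hp1 ε (Finset.mem_union_left _ (Finset.mem_singleton_self ε))
  set b₀ : Po (N + 1) (O p) := ∏ g ∈ s, lf g with hb₀def
  have hb₀ : map (O p).subtype b₀ = b := by
    rw [hb₀def, map_prod, hbdef]
    exact Finset.prod_congr rfl fun g hg => hlf g hg
  have hinj : Function.Injective (map (O p).subtype : Po (N + 1) (O p) → _) :=
    map_injective _ (O p).subtype_injective
  have hmp : mp (O p).subtype F₀ = F := hF₀
  have hm₀ : Mny P₀ := by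
    have h1 := hP.mon
    rw [← hP₀] at h1
    unfold Mny at h1 ⊢
    rw [Pool.Agent.H49.HX.fse_map] at h1
    exact Polynomial.monic_of_injective (map_injective _ (O p).subtype_injective) h1
  -- the Wronskian over the valuation ring
  set w₀ : Po (N + 1) (O p) := wr P₀ F₀ (cc P₀ F₀ b₀) D with hw₀def
  have hw₀ : map (O p).subtype w₀ = wr P F (cc P F b) D := by
    have h1 := hMPW N r (O p) Qb (O p).subtype P₀ F₀ (cc P₀ F₀ b₀)
    have h2 := hMPW N r (O p) Qb (O p).subtype P₀ F₀ b₀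
    have h3 := h1.2.2.1 D
    rw [← h2.2.2.2, hmp, hb₀, hP₀] at h3
    exact h3.symm
  have hnd : ¬ map (residue (O p)) P₀ ∣ map (residue (O p)) w₀ := by
    have hεO : ε ∈ (O p).toSubring := hεv.le
    have h1 : residue (O p) ⟨ε, hεO⟩ ≠ 0 := (residue_ne_zero p).mpr hεv
    exact hε' (Res p) (O p).toSubring (residue (O p)) hεO h1 P₀ w₀ hm₀ hP₀ hw₀
  set Pb : Po (N + 1) (Res p) := map (residue (O p)) P₀ with hPb
  set Fb : Tup (N + 1) (Res p) := fun i => map (residue (O p)) (F₀ i) with hFb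
  set bb : Po (N + 1) (Res p) := map (residue (O p)) b₀ with hbb
  have hwb : map (residue (O p)) w₀ = wr Pb Fb (cc Pb Fb bb) D := by
    have h1 := hMPW N r (O p) (Res p) (residue (O p)) P₀ F₀ (cc P₀ F₀ b₀)
    have h2 := hMPW N r (O p) (Res p) (residue (O p)) P₀ F₀ b₀
    have h3 := h1.2.2.1 D
    rw [← h2.2.2.2] at h3
    exact h3.symm
  rw [hwb] at hnd
  have hmb : Mny Pb := (hMPW N r (O p) (Res p) (residue (O p)) P₀ F₀ b₀).1 hm₀
  -- homogeneity descends and ascends
  have hhom : ∀ (n : ℕ) (g₀ : Po (N + 1) (O p)), (map (O p).subtype g₀).IsHomogeneous n →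
      (map (residue (O p)) g₀).IsHomogeneous n := by
    intro n g₀ h
    have h1 : g₀.IsHomogeneous n := by
      intro u hu
      apply h
      rw [coeff_map]
      intro h0
      apply hu
      exact (O p).subtype_injective (by rw [h0, map_zero])
    exact h1.map _
  have hPbh : Pb.IsHomogeneous r := hhom r P₀ (by rw [hP₀]; exact hP.hom)
  have hFbh : ∀ i, (Fb i).IsHomogeneous d := by
    intro i
    apply hhom
    have h1 : map (O p).subtype (F₀ i) = F i := congrFun hF₀ i
    rw [h1]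
    exact hF i
  have hbbh : bb.IsHomogeneous m := hhom m b₀ (by rw [hb₀]; exact hbm)
  -- divisibility over the residue field
  have hdiv0 : P₀ ∣ aeval F₀ P₀ := by
    apply dvd_of_map_dvd p _ _ hm₀
    have h1 := Pool.Agent.H49.HX.aeval_mp (O p).subtype F₀ P₀
    rw [← h1, hP₀]
    have h2 : (fun i => map (O p).subtype (F₀ i)) = F := hF₀
    rw [h2]
    exact Ideal.mem_span_singleton.mp (hS.inv P (Ideal.mem_span_singleton_self P))
  have hdivb : Pb ∣ aeval Fb Pb := by
    have h1 := Pool.Agent.H49.HX.aeval_mp (residue (O p)) F₀ P₀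
    rw [hPb, hFb, h1]
    exact map_dvd (map (residue (O p))) hdiv0
  have : CharP (Res p) (p : ℕ) := Pool.Agent.H18.VP.charP_res p
  have : Fact (p : ℕ).Prime := ⟨p.pr.2⟩
  -- the Frobenius power
  set S : Finset (Res p) := (Pb.support.image fun u => coeff u Pb) ∪
    ((bb.support.image fun u => coeff u bb) ∪
    Finset.univ.biUnion (fun i => (Fb i).support.image fun u => coeff u (Fb i))) with hSdef
  obtain ⟨s0, hs1, hs0⟩ := Pool.Agent.H18.VP.exists_fix_finset p S
  set B : ℕ := max d (max r (wr Pb Fb (cc Pb Fb bb) D).totalDegree) with hB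
  have hlarge : B < (p : ℕ) ^ (s0 * (B + 1)) := by
    calc B < B + 1 := Nat.lt_succ_self _
      _ ≤ s0 * (B + 1) := Nat.le_mul_of_pos_left _ hs1
      _ < (p : ℕ) ^ (s0 * (B + 1)) := Nat.lt_pow_self p.pr.2.one_lt
  set t := s0 * (B + 1) with ht
  have ht1 : 1 ≤ t := Nat.le_trans hs1 (Nat.le_mul_of_pos_right _ (Nat.succ_pos B))
  have hfixS : ∀ a ∈ S, ∀ k, a ^ ((p : ℕ) ^ (t * k)) = a := by
    intro a ha k
    exact Pool.Agent.H18.VP.pow_fix p (Pool.Agent.H18.VP.pow_fix p (hs0 a ha) (B + 1)) k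
  have hfix : ∀ g : Po (N + 1) (Res p), (∀ u ∈ g.support, coeff u g ∈ S) → ∀ k u,
      coeff u g ^ ((p : ℕ) ^ (t * k)) = coeff u g := by
    intro g hg k u
    by_cases hu : u ∈ g.support
    · exact hfixS _ (hg u hu) k
    · rw [notMem_support_iff.mp hu, zero_pow (pow_ne_zero _ p.pr.2.ne_zero)]
  have hfixP := hfix Pb fun u hu => Finset.mem_union_left _ (Finset.mem_image_of_mem
    (fun u => coeff u Pb) hu)
  have hfixb := hfix bb fun u hu => Finset.mem_union_right _ (Finset.mem_union_left _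
    (Finset.mem_image_of_mem (fun u => coeff u bb) hu))
  have hfixF : ∀ i, ∀ k u, coeff u (Fb i) ^ ((p : ℕ) ^ (t * k)) = coeff u (Fb i) := fun i =>
    hfix (Fb i) fun u hu => Finset.mem_union_right _ (Finset.mem_union_right _
      (Finset.mem_biUnion.mpr ⟨i, Finset.mem_univ i,
        Finset.mem_image_of_mem (fun u => coeff u (Fb i)) hu⟩))
  have hone : ∀ g : Po (N + 1) (Res p), (∀ k u,
      coeff u g ^ ((p : ℕ) ^ (t * k)) = coeff u g) →
      map (iterateFrobenius (Res p) (p : ℕ) t) g = g := by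
    intro g hg
    apply map_frob_eq
    intro u
    have h1 := hg 1 u
    rwa [mul_one] at h1
  obtain ⟨x, hx1, hx2, hx3⟩ := hFRY N r d m (p : ℕ) t (Res p) Pb Fb bb D ht1 hr1 hPbh hmb hFbh hbbh
    (lt_of_le_of_lt (le_max_left _ _) hlarge)
    (le_of_lt (lt_of_le_of_lt ((le_max_left _ _).trans (le_max_right _ _)) hlarge))
    (hone Pb hfixP) (fun i => hone (Fb i) (hfixF i)) (hone bb hfixb) hdivb
    (lt_of_le_of_lt ((le_max_right _ _).trans (le_max_right _ _)) hlarge) hnd
  obtain ⟨a, ha, ha0⟩ := hLFX N p P₀ hm₀ x hx1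
  refine ⟨p, P₀, F₀, a, hpM, hm₀, hP₀, fun i => congrFun hF₀ i, ha0, ?_⟩
  have horb : ∀ n, (pmap Fb)^[n] x = fun i => x i ^ ((p : ℕ) ^ (t * n)) := by
    intro n
    induction n with
    | zero => ext i; simp
    | succ n ih =>
      rw [Function.iterate_succ_apply', ih]
      ext i
      rw [pmap, Pool.Agent.H8.HZ.eval_pow_of_fixed (p : ℕ) (t * n) (Fb i) (hfixF i n) x, hx2,
        ← pow_mul, ← pow_add]
      congr 2
      ring
  have hval : ∀ n, eval ((pmap Fb)^[n] x) bb ≠ 0 := by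
    intro n
    rw [horb, Pool.Agent.H8.HZ.eval_pow_of_fixed (p : ℕ) (t * n) bb (hfixb n) x]
    exact pow_ne_zero _ hx3
  have hxa : x = fun i => residue (O p) (a i) := funext fun i => (ha i).symm
  intro g hg
  refine ⟨⟨lf g, hlf g hg⟩, fun n => ?_⟩
  have h5 : (pmap Fb)^[n] x = fun i => residue (O p) ((pmap F₀)^[n] a i) := by
    rw [hxa]
    exact Pool.Agent.H12.ZD.pmap_iterate_map (residue (O p)) F₀ a n
  have h6 := hval n
  have h7 : ∀ g : Po (N + 1) (O p),
      eval (fun i => residue (O p) ((pmap F₀)^[n] a i)) (map (residue (O p)) g) =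
        residue (O p) (eval ((pmap F₀)^[n] a) g) := by
    intro g
    rw [eval_map, eval₂_comp]
    rfl
  rw [h5, hbb, h7, hb₀def, map_prod, map_prod] at h6
  have h8 := (Finset.prod_ne_zero_iff.mp h6) g hg
  have h9 := (Pool.Agent.H18.VP.residue_ne_zero p).mp h8
  have h10 : eval (cO ((pmap F₀)^[n] a)) g = ((eval ((pmap F₀)^[n] a) (lf g) : O p) : Qb) := by
    conv_lhs => rw [← hlf g hg]
    rw [eval_map]
    unfold cO
    have h11 := eval₂_comp (O p).subtype ((pmap F₀)^[n] a) (lf g)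
    exact h11.symm
  rw [h10]
  exact h9

end Pool.Agent.H18.VP
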