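import Pool.Agent.H18.VP.CoreX
import Pool.Agent.H49.VZ.Base

/-!
# A point whose orbit closure is totally invariant
-/

set_option linter.unusedSectionVars false

open MvPolynomial
open Pool.Agent.H12.ZD (pmap)
open Pool.Agent.H18.HIT Pool.Agent.H18.HX Pool.Agent.H18.VZ

namespace Pool.Agent.H18.VP

/-- total invariance of the orbit closure, for a given separating function -/
theorem str2 {N : ℕ} {k : Type} [Field k] [Infinite k] (G : Tup N k) (z P : Fin N → k)
    (θ : Po N k) (E : ℕ) (S : Finset (Fin N → k)) (hE : S.card = E) (hP : pmap G P = z)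
    (hjn : ∀ n, eval ((pmap G)^[n] z) (jac G) ≠ 0) (hjP : eval P (jac G) ≠ 0)
    (hvP : ∀ c ∈ van G z, eval P c = 0)
    (hcan : ∀ h c : Po N k, h * c ∈ van G z → eval z h ≠ 0 → c ∈ van G z)
    (hS : ∀ P' ∈ S, ∃ σ : k ≃+* k, (∀ i, map (σ : k →+* k) (G i) = G i) ∧
      (∀ i, σ (z i) = z i) ∧ ∀ i, σ (P i) = P' i)
    (hθ : ∀ x ∈ S, ∀ y ∈ S, eval x θ = eval y θ → x = y) :
    ∀ c : Fin E → Po N k,
      (∑ i : Fin E, θ ^ (i : ℕ) * aeval G (c i)) ∈ van G z → ∀ i, c i ∈ van G z := by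
  subst hE
  intro c hc i
  have hIJ := All.ijp N k G z P hP hjn hjP hvP
  have hG : ∀ a : Fin S.card, (∀ (l : ℕ) (c : Po N k),
      aeval G c ∈ van G z ⊔ mx ((S.equivFin.symm a : Fin N → k)) ^ l →
        c ∈ van G z ⊔ mx z ^ l) ∧
      eval ((S.equivFin.symm a : Fin N → k)) (jac G) ≠ 0 ∧
      pmap G ((S.equivFin.symm a : Fin N → k)) = z := by
    intro a
    obtain ⟨σ, h1, h2, h3⟩ := hS (S.equivFin.symm a : Fin N → k) (S.equivFin.symm a).2
    obtain ⟨g1, g2, g3, g4⟩ := All.glt N k G z P (S.equivFin.symm a : Fin N → k) σ h1 h2 h3 hIJ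
    refine ⟨g1, ?_, g4 hP⟩
    intro h0
    rw [← g3] at h0
    exact hjP ((map_eq_zero σ).1 h0)
  have hall := Pool.Agent.H94.HIT.pf_VDM N k G z S.card
    (fun a => (S.equivFin.symm a : Fin N → k)) θ
    (fun a => (hG a).2.2) (fun a b hab => by
      have h1 := hθ _ (S.equivFin.symm a).2 _ (S.equivFin.symm b).2 hab
      exact S.equivFin.symm.injective (Subtype.ext h1))
    (fun a l q => All.etl N k G _ (hG a).2.1 l q) (fun a => (hG a).1) c hc i
  obtain ⟨m, hm, hmc⟩ := Pool.Agent.H94.HIT.pf_KRU N k (van G z) z (c i) hall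
  refine hcan (1 - m) (c i) hmc ?_
  rw [map_sub, map_one, mem_mx.1 hm, sub_zero]
  exact one_ne_zero

variable {Qb : Type} [Field Qb] [CharZero Qb] [IsAlgClosed Qb]

/-- the jacobian of a map which is the identity modulo `p` -/
theorem jac_fl_ne {N : ℕ} (p : Pl Qb) (H : Tup N (O p)) (z : Fin N → O p) :
    eval (cO z) (jac (flQ p H)) ≠ 0 := by
  have h1 : jac (flQ p H) = map (O p).subtype (jac (fl p H)) :=
    Pool.Agent.H8.HZ.jac_map (O p).subtype (fl p H)
  rw [h1, eval_cO]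
  have h2 : ∀ q : Po N (O p), IsLocalRing.residue (O p) (eval z q) =
      eval (fun i => IsLocalRing.residue (O p) (z i)) (map (IsLocalRing.residue (O p)) q) := by
    intro q
    rw [eval_map, eval₂_comp]
    rfl
  have h3 : map (IsLocalRing.residue (O p)) (jac (fl p H)) = 1 := by
    have h4 : map (IsLocalRing.residue (O p)) (jac (fl p H)) =
        jac (fun i => map (IsLocalRing.residue (O p)) (fl p H i)) :=
      (Pool.Agent.H8.HZ.jac_map (IsLocalRing.residue (O p)) (fl p H)).symm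
    have h5 : (fun i => map (IsLocalRing.residue (O p)) (fl p H i)) =
        fun i => (X i : Po N (Res p)) := by
      funext i
      rw [fl, map_add, map_X, map_mul, map_C]
      have h6 : IsLocalRing.residue (O p) ((p : ℕ) : O p) = 0 := by
        rw [map_natCast]
        exact res_cast p
      rw [h6, C_0, zero_mul, add_zero]
    rw [h4, h5, jac]
    have h7 : (Matrix.of fun i j => pderiv j (X i : Po N (Res p))) = 1 := by
      ext1 i j
      rw [Matrix.of_apply, pderiv_X, Matrix.one_apply]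
      by_cases hij : i = j
      · subst hij
        simp
      · rw [if_neg hij, Pi.single_eq_of_ne]
        exact fun h => hij h
    rw [h7, Matrix.det_one]
  intro h0
  have h4 := h2 (jac (fl p H))
  rw [h3, map_one] at h4
  have h5 : (eval z (jac (fl p H)) : O p) = 0 := Subtype.ext h0
  rw [h5, map_zero] at h4
  exact zero_ne_one h4

theorem up_not_dvd {k : Type} [Field k] {N r : ℕ} {P : Po (N + 1) k} (hP : Hyp P r) {c : Po N k}
    (hc : c ≠ 0) : ¬ P ∣ up c := Pool.Agent.H49.VZ.not_dvd_up hP hc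

theorem cor_core (hALX : T_ALX) (hPEG : T_PEG) (hHGK : T_HGK) (hQb : Ftd Qb) (hPRX : T_PRX Qb)
    (hHNX : T_HNX Qb) (hNRX : T_NRX) (hINC : T_INC Qb) {N r d E : ℕ} {P b : Po (N + 1) Qb}
    {F : Tup (N + 1) Qb} {p : Pl Qb} {P₀ : Po (N + 1) (O p)} {k : ℕ} {a : Fin (N + 1) → O p}
    {H : Tup (N + 1) (O p)} (hP : Hyp P r) (h : Flo P b F d p P₀ k a H)
    (hs : Slf (Ideal.span {P}) F) (hc : Cvi (Ideal.span {P}) (it F k) E)
    {θ Δ g : Po (N + 1) Qb} (hB : Bas P (it F k) E θ Δ) (hg : ¬ P ∣ g) :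
    ∃ z : Fin (N + 1) → O p, eval (cO z) (pp P a) = 0 ∧
      eval (cO z) (aeval (lt (cO a) (((p : ℕ) : Qb) ^ 2)) g) ≠ 0 ∧
      eval (cO z) (aeval (lt (cO a) (((p : ℕ) : Qb) ^ 2)) Δ) ≠ 0 ∧
      ∀ c : Fin E → Po (N + 1) Qb,
        (∑ i : Fin E, (aeval (lt (cO a) (((p : ℕ) : Qb) ^ 2)) θ) ^ (i : ℕ) *
          aeval (flQ p H) (c i)) ∈ van (flQ p H) (cO z) →
        ∀ i, c i ∈ van (flQ p H) (cO z) := by
  classical
  obtain ⟨L, hL⟩ : ∃ L : Po (N + 1) Qb →ₐ[Qb] Po (N + 1) Qb,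
    L = aeval (lt (cO a) (((p : ℕ) : Qb) ^ 2)) := ⟨_, rfl⟩
  have hLd : ∀ q, pp P a ∣ L q ↔ P ∣ q := fun q => by rw [hL]; exact pp_dvd P a q
  have hprime := isPrime_span (pp_irr hP.irr a)
  have hpr := (pp_irr hP.irr a).prime
  have hsG := slf_pp h hs
  obtain ⟨hind, halg⟩ := hALX N Qb (pp P a) (flQ p H) (pp_irr hP.irr a) (pp_mon hP.mon a) hsG
  have hind' : ∀ q : Po N Qb, aeval (fun j : Fin N => flQ p H j.succ) q ∈ Ideal.span {pp P a} →
      q = 0 := fun q hq => hind q (Ideal.mem_span_singleton.mp hq)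
  have halg' : ∀ i, ∃ Q : Polynomial (Po N Qb), Q ≠ 0 ∧
      evg (fun j : Fin N => flQ p H j.succ) (X i) Q ∈ Ideal.span {pp P a} := by
    intro i
    obtain ⟨Q, hQ, hQ'⟩ := halg i
    exact ⟨Q, hQ, Ideal.mem_span_singleton.mpr hQ'⟩
  obtain ⟨θ₁, Φ, Δ₁, R, hmon, -, hroot, hΔ₁, hcoord⟩ := hPEG (N + 1) N Qb (Ideal.span {pp P a})
    (fun j => flQ p H j.succ) hind' halg'
  obtain ⟨cG, hcG, hcG'⟩ := cvi_pp h hc
  have hcc : ¬ pp P a ∣ cG * (L g * L Δ) := by
    intro hd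
    rcases hpr.dvd_or_dvd hd with hd | hd
    · exact hcG (Ideal.mem_span_singleton.mpr hd)
    · rcases hpr.dvd_or_dvd hd with hd | hd
      · exact hg ((hLd g).mp hd)
      · exact hB.ne ((hLd Δ).mp hd)
  obtain ⟨c', A, hc'0, hc'⟩ := hNRX N Qb (pp P a) (cG * (L g * L Δ)) (pp_irr hP.irr a)
    (pp_mon hP.mon a) hcc
  obtain ⟨w, hw, hgal⟩ := hHGK Qb hQb (N + 1) N (Ideal.span {pp P a})
    (fun j => flQ p H j.succ)
    (Finset.univ.image (flQ p H)) (c' * Δ₁) hind' halg' (mul_ne_zero hc'0 hΔ₁)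
  rw [map_mul] at hw
  obtain ⟨u, hu⟩ := hHNX N p P₀ a h.mon h.zero h.der (fun j => ((w j : ℤ) : O p))
  set z : Fin (N + 1) → O p := Fin.cons u (fun j => ((w j : ℤ) : O p)) with hz
  have hzs : ∀ j : Fin N, cO z j.succ = (w j : Qb) := by
    intro j
    change ((z j.succ : O p) : Qb) = _
    rw [hz, Fin.cons_succ]
    exact map_intCast (O p).subtype (w j)
  have hzs' : (fun j : Fin N => cO z j.succ) = cZ w := funext hzs
  have hzP : eval (cO z) (pp P a) = 0 := by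
    rw [eval_pp, ← h.map]
    have h1 : (fun i => cO a i + ((p : ℕ) : Qb) ^ 2 * cO z i) =
        cO (fun i => a i + ((p : ℕ) : O p) ^ 2 * z i) := by
      funext i
      change _ = (O p).subtype (a i + ((p : ℕ) : O p) ^ 2 * z i)
      rw [map_add, map_mul, map_pow, coe_p]
      rfl
    rw [h1, eval_cO, hu]
    rfl
  have hzer : Zer (Ideal.span {pp P a}) (cO z) := zer_span.mpr hzP
  have hle : ∀ c ∈ Ideal.span {pp P a}, c ∈ van (flQ p H) (cO z) := by
    intro c hc n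
    exact zer_iterate hsG.inv hzer n c hc
  obtain ⟨x, hx, hxvan⟩ := hPRX (N + 1) N p H Fin.succ z θ₁ Φ Δ₁ R h.hp hmon (hle _ hroot)
    (fun i => hle _ (hcoord i)) (by rw [hzs']; exact right_ne_zero_of_mul hw)
  have hcall : eval (cO z) (cG * (L g * L Δ)) ≠ 0 := by
    intro h0
    apply left_ne_zero_of_mul hw
    obtain ⟨B, hB⟩ := hc'
    have h1 := congrArg (eval (cO z)) hB
    rw [map_sub, map_mul (eval (cO z)) (cG * (L g * L Δ)) A,
      map_mul (eval (cO z)) (pp P a) B, h0, hzP, zero_mul, zero_mul, sub_zero, up,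
      eval_rename] at h1
    rw [← hzs']
    exact h1
  rw [map_mul, map_mul] at hcall
  have hcGz : eval (cO z) cG ≠ 0 := left_ne_zero_of_mul hcall
  have hgz : eval (cO z) (L g) ≠ 0 := left_ne_zero_of_mul (right_ne_zero_of_mul hcall)
  have hΔz : eval (cO z) (L Δ) ≠ 0 := right_ne_zero_of_mul (right_ne_zero_of_mul hcall)
  obtain ⟨S, hS, hS'⟩ := hcG' (cO z) hzer hcGz
  have hxG : pmap (flQ p H) (cO x) = cO z := by
    rw [← hx]
    exact pmap_cO (fl p H) x
  have hxz : Zer (Ideal.span {pp P a}) (cO x) :=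
    zer_span.mpr (hxvan _ (hle _ (Ideal.mem_span_singleton_self _)))
  have hgal' : ∀ P' ∈ S, ∃ σ : Qb ≃+* Qb, (∀ i, MvPolynomial.map (σ : Qb →+* Qb) (flQ p H i) =
      flQ p H i) ∧ (∀ i, σ (cO z i) = cO z i) ∧ ∀ i, σ (cO x i) = P' i := by
    intro P' hP'
    obtain ⟨h1, h2⟩ := hS' P' hP'
    obtain ⟨σ, hσ1, hσ2⟩ := hgal (cO x) P' hxz h1
      (fun j => by rw [← hzs j]; exact congrFun hxG j.succ)
      (fun j => by rw [← hzs j]; exact congrFun h2 j.succ)
    have hσG : ∀ i, MvPolynomial.map (σ : Qb →+* Qb) (flQ p H i) = flQ p H i :=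
      fun i => hσ1 _ (Finset.mem_image_of_mem _ (Finset.mem_univ i))
    refine ⟨σ, hσG, fun i => ?_, hσ2⟩
    have h3 : cO z i = eval (cO x) (flQ p H i) := (congrFun hxG i).symm
    have h4 : P' = fun i => (σ : Qb →+* Qb) (cO x i) := funext fun i => (hσ2 i).symm
    have h5 : σ (eval (cO x) (flQ p H i)) = eval P' (flQ p H i) := by
      have h6 := Pool.Agent.H8.HZ.eval_map_apply (σ : Qb →+* Qb) (flQ p H i) (cO x)
      rw [hσG, ← h4] at h6
      exact h6.symm
    rw [h3, h5, ← h3]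
    exact congrFun h2 i
  -- `θ` separates the fibre
  have hLev : ∀ (q : Po (N + 1) Qb) (y : Fin (N + 1) → Qb), eval y (L q) =
      eval (fun i => cO a i + ((p : ℕ) : Qb) ^ 2 * y i) q := by
    intro q y
    rw [hL, eval_lt]
  have hsep : ∀ x ∈ S, ∀ y ∈ S, eval x (L θ) = eval y (L θ) → x = y := by
    intro x hx y hy hxy
    obtain ⟨hx1, hx2⟩ := hS' x hx
    obtain ⟨hy1, hy2⟩ := hS' y hy
    have hxP := (eval_pp P a x).mp (zer_span.mp hx1)
    have hyP := (eval_pp P a y).mp (zer_span.mp hy1)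
    rw [hLev, hLev] at hxy
    have hTx : pmap (it F k) (fun i => cO a i + ((p : ℕ) : Qb) ^ 2 * x i) =
        fun i => cO a i + ((p : ℕ) : Qb) ^ 2 * cO z i := by
      rw [pmap_it, conj_pt h, hx2]
    have hTy : pmap (it F k) (fun i => cO a i + ((p : ℕ) : Qb) ^ 2 * y i) =
        fun i => cO a i + ((p : ℕ) : Qb) ^ 2 * cO z i := by
      rw [pmap_it, conj_pt h, hy2]
    rw [hLev] at hΔz
    funext l
    obtain ⟨M, c, Q, hQ⟩ := hB.gen (X l)
    have e1 := congrArg (eval (fun i => cO a i + ((p : ℕ) : Qb) ^ 2 * x i)) hQ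
    have e2 := congrArg (eval (fun i => cO a i + ((p : ℕ) : Qb) ^ 2 * y i)) hQ
    rw [map_sub, map_mul, map_pow, eval_aeval, map_sum, map_mul, hxP, zero_mul, hTx,
      eval_X] at e1
    rw [map_sub, map_mul, map_pow, eval_aeval, map_sum, map_mul, hyP, zero_mul, hTy,
      eval_X] at e2
    simp only [map_mul, map_pow, eval_aeval] at e1 e2
    rw [hTx] at e1
    rw [hTy, ← hxy] at e2
    have e3 := sub_eq_zero.mp e1
    have e4 := sub_eq_zero.mp e2
    rw [← e4] at e3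
    have e5 := mul_left_cancel₀ (pow_ne_zero M hΔz) e3
    exact mul_left_cancel₀ (p_ne p) (add_left_cancel e5)
  rw [← hL]
  refine ⟨z, hzP, hgz, hΔz, ?_⟩
  exact str2 (flQ p H) (cO z) (cO x) (L θ) E S hS hxG
    (fun n => by rw [flQ_iterate]; exact jac_fl_ne p H _)
    (jac_fl_ne p H x) hxvan
    (fun h' q hhq hh => hINC (N + 1) p H z h' q h.hp hhq hh) hgal' hsep

end Pool.Agent.H18.VP
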