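import Pool.Agent.H18.VP.Targets
import Pool.Agent.H13.HX.TargetsK

/-!
# Hilbert's irreducibility theorem over a field of finite transcendence degree: targets
-/

open MvPolynomial
open Pool.Agent.H12.ZD (pmap)
open Pool.Agent.H18.HIT Pool.Agent.H18.HX

namespace Pool.Agent.H18.VP

/-- integrally closed models with a specialization to a number field -/
def T_HPA : Prop := ∀ (k : Type) [Field k] [CharZero k] [IsAlgClosed k], Ftd k →
  ∀ (S E : Finset k), (∀ ε ∈ E, ε ≠ 0) → ∃ (K₀ : Subfield k) (A : Subring k) (φ : A →+* Qb)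
    (K' : IntermediateField ℚ Qb), A ≤ K₀.toSubring ∧ Algebra.IsAlgebraic K₀ k ∧
    (∀ a ∈ S, a ∈ A) ∧ (∀ x ∈ K₀, IsIntegral A x → x ∈ A) ∧ FiniteDimensional ℚ K' ∧
    (∀ a : A, φ a ∈ K') ∧ ∀ ε ∈ E, ∃ h : ε ∈ A, φ ⟨ε, h⟩ ≠ 0

/-- Hilbert's irreducibility theorem over a number field, several variables -/
def T_HPQ : Prop := ∀ (N : ℕ) (Φ : Polynomial (Po N Qb)) (c : Po N Qb)
  (K : IntermediateField ℚ Qb), FiniteDimensional ℚ K → Φ.Monic → Irreducible Φ → c ≠ 0 →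
  (∀ i m, coeff m (Φ.coeff i) ∈ K) → ∃ w : Fin N → ℤ, eval (cZ w : Fin N → Qb) c ≠ 0 ∧
    ∀ ρ ρ' : Qb, (Φ.map (eval (cZ w : Fin N → Qb))).eval ρ = 0 →
      (Φ.map (eval (cZ w : Fin N → Qb))).eval ρ' = 0 → ∃ σ : Qb ≃ₐ[K] Qb, σ ρ = ρ'

/-- Hilbert's irreducibility theorem over a field of finite transcendence degree -/
def T_HPK : Prop := ∀ (k : Type) [Field k] [CharZero k] [IsAlgClosed k], Ftd k →
  ∀ (N : ℕ) (Φ : Polynomial (Po N k)) (c : Po N k) (s : Finset k), Φ.Monic → Irreducible Φ →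
  c ≠ 0 → ∃ w : Fin N → ℤ, eval (cZ w : Fin N → k) c ≠ 0 ∧
    ∀ ρ ρ' : k, (Φ.map (eval (cZ w : Fin N → k))).eval ρ = 0 →
      (Φ.map (eval (cZ w : Fin N → k))).eval ρ' = 0 →
      ∃ σ : k ≃+* k, (∀ a ∈ s, σ a = a) ∧ σ ρ = ρ'

end Pool.Agent.H18.VP
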