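import Pool.Agent.H18.VP.AsmX
import Pool.Agent.H18.HX.CoreX
import Pool.Agent.H18.VP.HNX
import Pool.Agent.H18.VP.PRX
import Pool.Agent.H18.VP.PRM
import Pool.Agent.H18.VP.INB
import Pool.Agent.H18.VP.BIN
import Pool.Agent.H18.VP.Targets2

/-!
# Dense orbits on arbitrary varieties: the disc
-/

set_option linter.unusedSectionVars false

open MvPolynomial
open Pool.Agent.H12.ZD (pmap)
open Pool.Agent.H18.HIT Pool.Agent.H18.HX

namespace Pool.Agent.H18.VP

variable {Qb : Type} [Field Qb] [CharZero Qb] [IsAlgClosed Qb]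

/-- the equation of the hypersurface in the disc -/
noncomputable def pp {N : ℕ} (P : Po (N + 1) Qb) {p : Pl Qb} (a : Fin (N + 1) → O p) :
    Po (N + 1) Qb :=
  C (((((p : ℕ) : Qb) ^ 2) ^ (finSuccEquiv Qb N P).natDegree)⁻¹) *
    aeval (lt (cO a) (((p : ℕ) : Qb) ^ 2)) P

section

variable {N r d : ℕ} {P b : Po (N + 1) Qb} {F : Tup (N + 1) Qb} {p : Pl Qb}
  {P₀ : Po (N + 1) (O p)} {k : ℕ} {a : Fin (N + 1) → O p} {H : Tup (N + 1) (O p)}

theorem pp_unit (P : Po (N + 1) Qb) (p : Pl Qb) :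
    IsUnit (C (((((p : ℕ) : Qb) ^ 2) ^ (finSuccEquiv Qb N P).natDegree)⁻¹) : Po (N + 1) Qb) := by
  rw [isUnit_map_iff, isUnit_iff_ne_zero]
  exact inv_ne_zero (pow_ne_zero _ (p_ne p))

theorem pp_dvd (P : Po (N + 1) Qb) (a : Fin (N + 1) → O p) (q : Po (N + 1) Qb) :
    pp P a ∣ aeval (lt (cO a) (((p : ℕ) : Qb) ^ 2)) q ↔ P ∣ q := by
  rw [← dvd_lt (cO a) (p_ne p) P q, pp]
  exact (pp_unit P p).mul_left_dvd

theorem pp_irr (hP : Irreducible P) (a : Fin (N + 1) → O p) : Irreducible (pp P a) :=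
  (irreducible_isUnit_mul (pp_unit P p)).mpr (irreducible_lt (cO a) (p_ne p) hP)

theorem pp_mon (hP : Mny P) (a : Fin (N + 1) → O p) : Mny (pp P a) :=
  monic_lt (cO a) (p_ne p) hP

theorem eval_pp (P : Po (N + 1) Qb) (a : Fin (N + 1) → O p) (x : Fin (N + 1) → Qb) :
    eval x (pp P a) = 0 ↔ eval (fun i => cO a i + ((p : ℕ) : Qb) ^ 2 * x i) P = 0 := by
  rw [pp, map_mul, eval_C, eval_lt]
  refine ⟨fun h => (mul_eq_zero.mp h).resolve_left (inv_ne_zero (pow_ne_zero _ (p_ne p))),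
    fun h => by rw [h, mul_zero]⟩

theorem conj_aeval (h : Flo P b F d p P₀ k a H) (q : Po (N + 1) Qb) :
    aeval (flQ p H) (aeval (lt (cO a) (((p : ℕ) : Qb) ^ 2)) q) =
      aeval (lt (cO a) (((p : ℕ) : Qb) ^ 2)) (aeval (it F k) q) := by
  rw [← aeval_comp, ← aeval_comp, h.conj]

theorem conj_pt (h : Flo P b F d p P₀ k a H) (x : Fin (N + 1) → Qb) :
    (pmap F)^[k] (fun i => cO a i + ((p : ℕ) : Qb) ^ 2 * x i) =
      fun i => cO a i + ((p : ℕ) : Qb) ^ 2 * pmap (flQ p H) x i := by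
  have h1 : ∀ y : Fin (N + 1) → Qb, pmap (lt (cO a) (((p : ℕ) : Qb) ^ 2)) y =
      fun i => cO a i + ((p : ℕ) : Qb) ^ 2 * y i := by
    intro y
    funext i
    simp [pmap, lt]
  have h2 := congrArg (fun f => pmap f x) h.conj
  simp only [pmap_comp, h1, pmap_it] at h2
  exact h2

theorem conj_orb (h : Flo P b F d p P₀ k a H) (x : Fin (N + 1) → Qb) (n : ℕ) :
    (pmap F)^[k * n] (fun i => cO a i + ((p : ℕ) : Qb) ^ 2 * x i) =
      fun i => cO a i + ((p : ℕ) : Qb) ^ 2 * (pmap (flQ p H))^[n] x i := by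
  induction n with
  | zero => rfl
  | succ n ih =>
    rw [Nat.mul_succ, Nat.add_comm (k * n) k, Function.iterate_add_apply, ih, conj_pt h,
      Function.iterate_succ_apply']

theorem slf_pp (h : Flo P b F d p P₀ k a H) (hs : Slf (Ideal.span {P}) F) :
    Slf (Ideal.span {pp P a}) (flQ p H) := by
  have hsk := hs.it k
  have key : ∀ c : Po (N + 1) Qb, pp P a ∣ aeval (flQ p H) c ↔ pp P a ∣ c := by
    intro c
    have h1 : c = aeval (lt (cO a) (((p : ℕ) : Qb) ^ 2))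
        (aeval (li (cO a) (((p : ℕ) : Qb) ^ 2)) c) := (aeval_lt_li (cO a) (p_ne p) c).symm
    rw [h1, conj_aeval h, pp_dvd, pp_dvd, ← Ideal.mem_span_singleton,
      ← Ideal.mem_span_singleton]
    exact hsk.iff _
  constructor
  · intro c hc
    rw [Ideal.mem_span_singleton] at hc ⊢
    exact (key c).mpr hc
  · intro c hc
    rw [Ideal.mem_span_singleton] at hc ⊢
    exact (key c).mp hc

theorem cvi_pp (h : Flo P b F d p P₀ k a H) {e : ℕ} (hc : Cvi (Ideal.span {P}) (it F k) e) :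
    Cvi (Ideal.span {pp P a}) (flQ p H) e := by
  classical
  obtain ⟨c, hcP, hc⟩ := hc
  refine ⟨aeval (lt (cO a) (((p : ℕ) : Qb) ^ 2)) c, ?_, fun y hy hyc => ?_⟩
  · rw [Ideal.mem_span_singleton, pp_dvd, ← Ideal.mem_span_singleton]
    exact hcP
  rw [zer_span, eval_pp] at hy
  rw [eval_lt] at hyc
  obtain ⟨S, hS, hS'⟩ := hc _ (zer_span.mpr hy) hyc
  set g : (Fin (N + 1) → Qb) → (Fin (N + 1) → Qb) :=
    fun x i => (((p : ℕ) : Qb) ^ 2)⁻¹ * (x i - cO a i) with hg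
  have hgl : ∀ x, (fun i => cO a i + ((p : ℕ) : Qb) ^ 2 * g x i) = x := by
    intro x
    funext i
    rw [hg]
    change cO a i + ((p : ℕ) : Qb) ^ 2 * ((((p : ℕ) : Qb) ^ 2)⁻¹ * (x i - cO a i)) = x i
    rw [← mul_assoc, mul_inv_cancel₀ (p_ne p)]
    ring
  have hinj : Function.Injective g := by
    intro x y hxy
    rw [← hgl x, ← hgl y, hxy]
  refine ⟨S.image g, by rw [Finset.card_image_of_injective _ hinj, hS], fun x hx => ?_⟩
  obtain ⟨w, hw, rfl⟩ := Finset.mem_image.mp hx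
  obtain ⟨h1, h2⟩ := hS' w hw
  constructor
  · rw [zer_span, eval_pp, hgl]
    exact zer_span.mp h1
  · have h3 := conj_pt h (g w)
    rw [hgl, ← pmap_it, h2] at h3
    funext i
    have h4 := congrFun h3 i
    exact (mul_left_cancel₀ (p_ne p) (add_left_cancel h4)).symm

theorem deg_flQ_pos (H : Tup (N + 1) (O p)) : 1 ≤ deg (flQ p H) := by
  by_contra hlt
  have h0 : (flQ p H 0).totalDegree = 0 := by
    have := totalDegree_le_deg (flQ p H) 0
    omega
  rw [totalDegree_eq_zero_iff_eq_C] at h0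
  have h1 := congrArg (coeff (Finsupp.single 0 1)) h0
  rw [coeff_C, if_neg (by
    intro h
    have h2 := congrArg (fun f => f 0) h
    simp at h2)] at h1
  have h2 : coeff (Finsupp.single 0 1) (flQ p H 0) =
      1 + ((p : ℕ) : Qb) * ((coeff (Finsupp.single 0 1) (H 0) : O p) : Qb) := by
    rw [flQ, fl, map_add, map_mul, map_X, map_C, coeff_add, coeff_C_mul, coeff_map, coe_p]
    rw [show (X 0 : Po (N + 1) Qb) = monomial (Finsupp.single 0 1) 1 from rfl, coeff_monomial,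
      if_pos rfl]
    rfl
  rw [h2] at h1
  have h3 : v p (((p : ℕ) : Qb) * ((coeff (Finsupp.single 0 1) (H 0) : O p) : Qb)) < 1 := by
    rw [Pool.Agent.H18.VP.v_mul]
    calc _ ≤ v p ((p : ℕ) : Qb) * 1 := mul_le_mul_of_nonneg_left
            (coeff (Finsupp.single 0 1) (H 0) : O p).2 (Pool.Agent.H18.VP.v_nonneg p _)
      _ < 1 := by
          rw [mul_one]
          exact Pool.Agent.H18.VP.v_self_lt p
  have h4 : ((p : ℕ) : Qb) * ((coeff (Finsupp.single 0 1) (H 0) : O p) : Qb) = -1 := by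
    linear_combination h1
  rw [h4, Pool.Agent.H18.VP.v_neg, Pool.Agent.H18.VP.v_one] at h3
  exact lt_irrefl _ h3

end

end Pool.Agent.H18.VP
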