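import Pool.Agent.H18.VP.Local

/-!
# Maps which are the identity modulo `p`
-/

open MvPolynomial
open Pool.Agent.H12.ZD (pmap)
open Pool.Agent.H18.HIT

namespace Pool.Agent.H18.VP

variable {Qb : Type} [Field Qb]

section place

variable {N : ℕ} (p : Pl Qb)

/-- a map which is the identity modulo `p` -/
noncomputable def fl (H : Tup N (O p)) : Tup N (O p) := fun i => X i + C ((p : ℕ) : O p) * H i

/-- the same map over the field -/
noncomputable def flQ (H : Tup N (O p)) : Tup N Qb := fun i => map (O p).subtype (fl p H i)

/-- an integral point as a point over the field -/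
noncomputable def cO {p : Pl Qb} (z : Fin N → O p) : Fin N → Qb := fun i => (z i : Qb)

/-- polynomials with integer coefficients as power series over the valuation ring -/
noncomputable def toPS : Polynomial ℤ →+* PowerSeries (O p) :=
  (Polynomial.coeToPowerSeries.ringHom).comp (Polynomial.mapRingHom (Int.castRingHom (O p)))

end place

/-- a point with integer coordinates -/
noncomputable def cZ {N : ℕ} (z : Fin N → ℤ) : Fin N → Qb := fun i => (z i : Qb)


section place

variable {N : ℕ} {p : Pl Qb}

theorem cO_injective : Function.Injective (cO : (Fin N → O p) → Fin N → Qb) := by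
  intro a b h
  funext i
  exact Subtype.ext (congrFun h i)

theorem eval_cO (q : Po N (O p)) (z : Fin N → O p) :
    eval (cO z) (map (O p).subtype q) = ((eval z q : O p) : Qb) := by
  rw [eval_map]
  exact (eval₂_comp (O p).subtype z q).symm

theorem pmap_cO (f : Tup N (O p)) (z : Fin N → O p) :
    pmap (fun i => map (O p).subtype (f i)) (cO z) = cO (pmap f z) := by
  funext i
  exact eval_cO (f i) z

theorem iterate_cO (f : Tup N (O p)) (z : Fin N → O p) (n : ℕ) :
    (pmap (fun i => map (O p).subtype (f i)))^[n] (cO z) = cO ((pmap f)^[n] z) := by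
  induction n with
  | zero => rfl
  | succ n ih => rw [Function.iterate_succ_apply', ih, pmap_cO, ← Function.iterate_succ_apply' (pmap f)]

theorem flQ_iterate (H : Tup N (O p)) (z : Fin N → O p) (n : ℕ) :
    (pmap (flQ p H))^[n] (cO z) = cO ((pmap (fl p H))^[n] z) := iterate_cO (fl p H) z n

end place

end Pool.Agent.H18.VP
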