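import Pool.Agent.H18.VP.Residue

/-!
# Polynomials over the valuation ring
-/

open MvPolynomial IsLocalRing

namespace Pool.Agent.H18.VP

variable {Qb : Type} [Field Qb]

section

variable (p : Pl Qb)

theorem close_eval {ι : Type*} (b : MvPolynomial ι (O p)) (z z' : ι → O p) {ε : ℝ} (hε : 0 < ε)
    (h : ∀ i, v p ((z i : Qb) - z' i) < ε) :
    v p ((eval z b : O p) - (eval z' b : O p) : Qb) < ε := by
  induction b using MvPolynomial.induction_on with
  | C a => simpa using hε
  | add b c hb hc =>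
    have h1 : ((eval z (b + c) : O p) : Qb) - (eval z' (b + c) : O p) =
        (((eval z b : O p) : Qb) - (eval z' b : O p)) +
          (((eval z c : O p) : Qb) - (eval z' c : O p)) := by
      rw [map_add, map_add]
      push_cast
      ring
    rw [h1]
    exact v_add_lt p hb hc
  | mul_X b i hb =>
    have h1 : ((eval z (b * X i) : O p) : Qb) - (eval z' (b * X i) : O p) =
        ((eval z b : O p) : Qb) * ((z i : Qb) - z' i) +
          (((eval z b : O p) : Qb) - (eval z' b : O p)) * (z' i : Qb) := by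
      rw [map_mul, map_mul, eval_X, eval_X]
      push_cast
      ring
    rw [h1]
    apply v_add_lt
    · rw [v_mul]
      calc v p ((eval z b : O p) : Qb) * v p ((z i : Qb) - z' i) ≤ 1 * v p ((z i : Qb) - z' i) :=
            mul_le_mul_of_nonneg_right (eval z b : O p).2 (v_nonneg p _)
        _ < ε := by rw [one_mul]; exact h i
    · rw [v_mul]
      calc v p (((eval z b : O p) : Qb) - (eval z' b : O p)) * v p (z' i : Qb)
          ≤ v p (((eval z b : O p) : Qb) - (eval z' b : O p)) * 1 :=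
            mul_le_mul_of_nonneg_left (z' i).2 (v_nonneg p _)
        _ < ε := by rw [mul_one]; exact hb

theorem close_eval' (G : Polynomial (O p)) (x y : O p) {ε : ℝ} (h : v p ((x : Qb) - y) < ε) :
    v p ((G.eval x : O p) - (G.eval y : O p) : Qb) < ε := by
  obtain ⟨w, hw⟩ := G.evalSubFactor x y
  have h1 : ((G.eval x : O p) : Qb) - (G.eval y : O p) = (w : Qb) * ((x : Qb) - y) := by
    have := congrArg (fun z : O p => (z : Qb)) hw
    simpa using this
  rw [h1, v_mul]
  calc v p (w : Qb) * v p ((x : Qb) - y) ≤ 1 * v p ((x : Qb) - y) :=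
        mul_le_mul_of_nonneg_right w.2 (v_nonneg p _)
    _ < ε := by rw [one_mul]; exact h

/-- a nonzero multiple of a polynomial is integral at a given place -/
theorem exists_scale [CharZero Qb] {ι : Type*} (h : MvPolynomial ι Qb) : ∃ c : Qb, c ≠ 0 ∧
    ∃ h₀ : MvPolynomial ι (O p), map (O p).subtype h₀ = C c * h := by
  classical
  have h1 : ∀ x : Qb, ∃ M : ℕ, ∀ m ≥ M, v p x * (v p ((p : ℕ) : Qb)) ^ m ≤ 1 := by
    intro x
    have h2 : Filter.Tendsto (fun n : ℕ => v p x * (v p ((p : ℕ) : Qb)) ^ n) Filter.atTop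
        (nhds (v p x * 0)) :=
      (tendsto_pow_atTop_nhds_zero_of_lt_one (v_nonneg p _) (v_self_lt p)).const_mul _
    rw [mul_zero] at h2
    exact Filter.eventually_atTop.mp (h2.eventually_le_const one_pos)
  choose M hM using h1
  refine ⟨((p : ℕ) : Qb) ^ (h.coeffs.sup M), pow_ne_zero _ (by exact_mod_cast p.pr.2.ne_zero), ?_⟩
  have h2 : C (((p : ℕ) : Qb) ^ (h.coeffs.sup M)) * h ∈ Set.range (map (O p).subtype) := by
    rw [mem_range_map_iff_coeffs_subset]
    intro x hx
    rw [Finset.mem_coe, mem_coeffs_iff] at hx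
    obtain ⟨m, hm, rfl⟩ := hx
    rw [coeff_C_mul]
    have hm' : coeff m h ∈ h.coeffs := by
      rw [mem_coeffs_iff]
      refine ⟨m, ?_, rfl⟩
      rw [mem_support_iff] at hm ⊢
      intro h0
      rw [coeff_C_mul, h0, mul_zero] at hm
      exact hm rfl
    have hint : v p (((p : ℕ) : Qb) ^ (h.coeffs.sup M) * coeff m h) ≤ 1 := by
      rw [v_mul, v_pow, mul_comm]
      exact hM _ _ (Finset.le_sup hm')
    exact ⟨⟨_, hint⟩, rfl⟩
  exact h2

end

theorem charP_res (p : Pl Qb) : CharP (Res p) (p : ℕ) :=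
  (CharP.charP_iff_prime_eq_zero p.pr.2).mpr (res_cast p)

/-- every element of the residue field is fixed by a power of the Frobenius -/
theorem exists_fix (p : Pl Qb) (a : Res p) : ∃ s : ℕ, 1 ≤ s ∧ a ^ ((p : ℕ) ^ s) = a := by
  have : CharP (Res p) (p : ℕ) := charP_res p
  by_cases ha : a = 0
  · refine ⟨1, le_rfl, ?_⟩
    rw [ha, pow_one, zero_pow p.pr.2.ne_zero]
  obtain ⟨n, hn, h⟩ := res_finite_order p a ha
  obtain ⟨i, j, hij, h1⟩ := Finite.exists_ne_map_eq_of_infinite
    (fun j : ℕ => (⟨(p : ℕ) ^ j % n, Nat.mod_lt _ hn⟩ : Fin n))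
  have h2 : (p : ℕ) ^ i % n = (p : ℕ) ^ j % n := congrArg Fin.val h1
  have h3 : ∀ e : ℕ, a ^ e = a ^ (e % n) := by
    intro e
    conv_lhs => rw [← Nat.div_add_mod e n, pow_add, pow_mul, h, one_pow, one_mul]
  have h4 : ∀ i j : ℕ, i < j → (p : ℕ) ^ i % n = (p : ℕ) ^ j % n →
      ∃ s : ℕ, 1 ≤ s ∧ a ^ ((p : ℕ) ^ s) = a := by
    intro i j hij h2
    refine ⟨j - i, by omega, ?_⟩
    have h5 : a ^ ((p : ℕ) ^ i) = a ^ ((p : ℕ) ^ j) := by rw [h3, h2, ← h3]
    have h6 : (p : ℕ) ^ j = (p : ℕ) ^ (j - i) * (p : ℕ) ^ i := by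
      rw [← pow_add]; congr 1; omega
    rw [h6, pow_mul, ← iterateFrobenius_def, ← iterateFrobenius_def (p := (p : ℕ))] at h5
    exact ((iterateFrobenius (Res p) (p : ℕ) i).injective h5).symm
  rcases Nat.lt_or_gt_of_ne hij with h5 | h5
  · exact h4 i j h5 h2
  · exact h4 j i h5 h2.symm

theorem pow_fix (p : Pl Qb) {a : Res p} {s : ℕ} (h : a ^ ((p : ℕ) ^ s) = a) (k : ℕ) :
    a ^ ((p : ℕ) ^ (s * k)) = a := by
  induction k with
  | zero => rw [mul_zero, pow_zero, pow_one]
  | succ k ih => rw [Nat.mul_succ, pow_add, pow_mul, ih, h]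

/-- a common Frobenius power for finitely many elements -/
theorem exists_fix_finset (p : Pl Qb) (S : Finset (Res p)) :
    ∃ s : ℕ, 1 ≤ s ∧ ∀ a ∈ S, a ^ ((p : ℕ) ^ s) = a := by
  classical
  choose s hs using exists_fix p
  refine ⟨∏ a ∈ S, s a, Finset.one_le_prod' fun a _ => (hs a).1, fun a ha => ?_⟩
  obtain ⟨c, hc⟩ := Finset.dvd_prod_of_mem s ha
  rw [hc]
  exact pow_fix p (hs a).2 c

end Pool.Agent.H18.VP
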