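import Pool.Agent.H18.VZ.Targets

/-!
# Places of a field of characteristic zero
-/

open Polynomial Function

namespace Pool.Agent.H18.VP

/-- a place: an embedding into the algebraic closure of `ℚ_p` -/
structure Pl (Qb : Type) [Field Qb] where
  /-- the prime number -/
  pr : Nat.Primes
  /-- the embedding -/
  em : Qb →+* PadicAlgCl pr

instance {Qb : Type} [Field Qb] : CoeOut (Pl Qb) ℕ := ⟨fun p => (p.pr : ℕ)⟩

instance {Qb : Type} [Field Qb] (p : Pl Qb) : Fact (p : ℕ).Prime := ⟨p.pr.2⟩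

variable {Qb : Type} [Field Qb]

/-- the absolute value of a place -/
noncomputable def v (p : Pl Qb) (x : Qb) : ℝ := ‖p.em x‖

variable (p : Pl Qb)


theorem v_nonneg (x : Qb) : 0 ≤ v p x := norm_nonneg _
@[simp] theorem v_zero : v p 0 = 0 := by simp [v]
@[simp] theorem v_one : v p 1 = 1 := by simp [v]
@[simp] theorem v_neg (x : Qb) : v p (-x) = v p x := by simp [v]
theorem v_mul (x y : Qb) : v p (x * y) = v p x * v p y := by simp [v]
theorem v_pow (x : Qb) (n : ℕ) : v p (x ^ n) = v p x ^ n := by simp [v]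
theorem v_inv (x : Qb) : v p (x⁻¹) = (v p x)⁻¹ := by simp [v]
theorem v_eq_zero {x : Qb} : v p x = 0 ↔ x = 0 := by simp [v]
theorem v_pos {x : Qb} : 0 < v p x ↔ x ≠ 0 := by simp [v]
theorem v_sub_comm (x y : Qb) : v p (x - y) = v p (y - x) := by
  rw [← v_neg, neg_sub]

theorem v_add_le (x y : Qb) : v p (x + y) ≤ max (v p x) (v p y) := by
  simp only [v, map_add]
  exact IsUltrametricDist.norm_add_le_max _ _

theorem v_sub_le (x y : Qb) : v p (x - y) ≤ max (v p x) (v p y) := by
  rw [sub_eq_add_neg]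
  refine (v_add_le p _ _).trans ?_
  rw [v_neg]

theorem v_add_lt {x y : Qb} {ε : ℝ} (hx : v p x < ε) (hy : v p y < ε) : v p (x + y) < ε :=
  (v_add_le p x y).trans_lt (max_lt hx hy)

theorem v_sub_lt {x y : Qb} {ε : ℝ} (hx : v p x < ε) (hy : v p y < ε) : v p (x - y) < ε :=
  (v_sub_le p x y).trans_lt (max_lt hx hy)

theorem v_add_le' {x y : Qb} {ε : ℝ} (hx : v p x ≤ ε) (hy : v p y ≤ ε) : v p (x + y) ≤ ε :=
  (v_add_le p x y).trans (max_le hx hy)

theorem v_sub_le' {x y : Qb} {ε : ℝ} (hx : v p x ≤ ε) (hy : v p y ≤ ε) : v p (x - y) ≤ ε :=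
  (v_sub_le p x y).trans (max_le hx hy)

theorem v_sum_le {ι : Type*} (s : Finset ι) (x : ι → Qb) {ε : ℝ} (hε : 0 ≤ ε)
    (h : ∀ i ∈ s, v p (x i) ≤ ε) : v p (∑ i ∈ s, x i) ≤ ε := by
  classical
  induction s using Finset.induction_on with
  | empty => simpa using hε
  | insert i s hi ih =>
    rw [Finset.sum_insert hi]
    exact v_add_le' p (h i (Finset.mem_insert_self i s))
      (ih fun j hj => h j (Finset.mem_insert_of_mem hj))

theorem v_sum_lt {ι : Type*} (s : Finset ι) (x : ι → Qb) {ε : ℝ} (hε : 0 < ε)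
    (h : ∀ i ∈ s, v p (x i) < ε) : v p (∑ i ∈ s, x i) < ε := by
  classical
  induction s using Finset.induction_on with
  | empty => simpa using hε
  | insert i s hi ih =>
    rw [Finset.sum_insert hi]
    exact v_add_lt p (h i (Finset.mem_insert_self i s))
      (ih fun j hj => h j (Finset.mem_insert_of_mem hj))

/-- if `x` is close to `y` compared with `v y` then `v x = v y` -/
theorem v_eq_of_sub_lt {x y : Qb} (h : v p (x - y) < v p y) : v p x = v p y := by
  apply le_antisymm
  · have : x = (x - y) + y := by ring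
    rw [this]
    exact v_add_le' p h.le le_rfl
  · by_contra hlt
    rw [not_le] at hlt
    have h1 : v p y < v p y := by
      have h2 : y = x - (x - y) := by ring
      calc v p y = v p (x - (x - y)) := by rw [← h2]
        _ < v p y := v_sub_lt p hlt h
    exact lt_irrefl _ h1

theorem v_intCast (n : ℤ) : v p (n : Qb) = ‖(n : ℚ_[p.pr])‖ := by
  rw [v, map_intCast]
  have : ((n : ℚ_[p.pr]) : PadicAlgCl p.pr) = (n : PadicAlgCl p.pr) := by
    exact map_intCast (algebraMap ℚ_[p.pr] (PadicAlgCl p.pr)) n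
  rw [← this, PadicAlgCl.norm_extends]

theorem v_natCast (n : ℕ) : v p (n : Qb) = ‖(n : ℚ_[p.pr])‖ := by
  have := v_intCast p n
  simpa using this

theorem v_intCast_le (n : ℤ) : v p (n : Qb) ≤ 1 := by
  rw [v_intCast]
  exact Padic.norm_int_le_one n

theorem v_natCast_le (n : ℕ) : v p (n : Qb) ≤ 1 := by
  rw [v_natCast]
  exact_mod_cast Padic.norm_int_le_one (p := p) (n : ℤ)

theorem v_self : v p ((p : ℕ) : Qb) = ((p : ℕ) : ℝ)⁻¹ := by
  rw [v_natCast]
  exact Padic.norm_p

theorem v_self_lt : v p ((p : ℕ) : Qb) < 1 := by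
  rw [v_self]
  exact inv_lt_one_of_one_lt₀ (by exact_mod_cast p.pr.2.one_lt)

theorem v_natCast_lt {n : ℕ} (h : (p : ℕ) ∣ n) : v p (n : Qb) < 1 := by
  rw [v_natCast]
  exact (Padic.norm_natCast_lt_one_iff).mpr h

theorem v_natCast_eq {n : ℕ} (h : ¬ (p : ℕ) ∣ n) : v p (n : Qb) = 1 := by
  rw [v_natCast]
  exact (Padic.norm_natCast_eq_one_iff).mpr (((p.pr.2.coprime_iff_not_dvd).mpr h))

/-- integral elements have absolute value at most one -/
theorem v_le_one_of_isIntegral {x : Qb} (hx : IsIntegral ℤ x) : v p x ≤ 1 := by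
  obtain ⟨P, hP, hPx⟩ := hx
  by_contra hlt
  rw [not_le] at hlt
  have hx0 : 0 < v p x := by linarith
  have h1 : x ^ P.natDegree = - ∑ i ∈ Finset.range P.natDegree, (P.coeff i : Qb) * x ^ i := by
    rw [eval₂_eq_sum_range, Finset.sum_range_succ, hP.coeff_natDegree] at hPx
    simp only [eq_intCast, Int.cast_one, one_mul] at hPx
    linear_combination hPx
  have h2 : v p x ^ P.natDegree < v p x ^ P.natDegree := by
    calc v p x ^ P.natDegree = v p (x ^ P.natDegree) := (v_pow p x _).symm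
      _ = v p (∑ i ∈ Finset.range P.natDegree, (P.coeff i : Qb) * x ^ i) := by rw [h1, v_neg]
      _ < v p x ^ P.natDegree := by
        apply v_sum_lt p _ _ (by positivity)
        intro i hi
        rw [v_mul, v_pow]
        calc v p (P.coeff i : Qb) * v p x ^ i ≤ 1 * v p x ^ i :=
              mul_le_mul_of_nonneg_right (v_intCast_le p _) (by positivity)
          _ = v p x ^ i := one_mul _
          _ < v p x ^ P.natDegree :=
              pow_lt_pow_right₀ hlt (Finset.mem_range.mp hi)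
  exact lt_irrefl _ h2

end Pool.Agent.H18.VP
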