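import Pool.Agent.H18.VP.Place

/-!
# A pigeonhole principle for integral points over a finitely generated field
-/

open Polynomial Function Module

namespace Pool.Agent.H18.VP

variable {Qb : Type} [Field Qb] (p : Pl Qb)

/-- the subfield of the elements with image in an extension of `ℚ_p` -/
noncomputable def sbf (W : IntermediateField ℚ_[p.pr] (PadicAlgCl p.pr)) : Subfield Qb :=
  W.toSubfield.comap p.em

theorem mem_sbf {W : IntermediateField ℚ_[p.pr] (PadicAlgCl p.pr)} {x : Qb} :
    x ∈ sbf p W ↔ p.em x ∈ W := Iff.rfl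

/-- finitely many elements are contained in a finite extension of `ℚ_p` -/
theorem exists_sbf (S : Finset Qb) : ∃ W : IntermediateField ℚ_[p.pr] (PadicAlgCl p.pr),
    FiniteDimensional ℚ_[p.pr] W ∧ ∀ x ∈ S, x ∈ sbf p W := by
  classical
  refine ⟨IntermediateField.adjoin ℚ_[p.pr] (S.image p.em : Set (PadicAlgCl p.pr)),
    IntermediateField.finiteDimensional_adjoin fun x _ =>
      (Algebra.IsAlgebraic.isAlgebraic (R := ℚ_[p.pr]) x).isIntegral, ?_⟩
  intro x hx
  rw [mem_sbf]
  apply IntermediateField.subset_adjoin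
  exact Finset.mem_coe.2 (Finset.mem_image_of_mem _ hx)

/-- Among infinitely many integral points over a finite extension two are close to each other. -/
theorem exists_close {ι : Type} [Fintype ι] (W : IntermediateField ℚ_[p.pr] (PadicAlgCl p.pr))
    [FiniteDimensional ℚ_[p.pr] W]
    (x : ℕ → ι → Qb) (hK : ∀ n i, x n i ∈ sbf p W) (hx : ∀ n i, v p (x n i) ≤ 1) {ε : ℝ}
    (hε : 0 < ε) :
    ∃ i j : ℕ, i < j ∧ ∀ l, v p (x i l - x j l) < ε := by
  have hproper : ProperSpace W := FiniteDimensional.proper ℚ_[p.pr] W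
  let y : ℕ → ι → W := fun n i => ⟨p.em (x n i), hK n i⟩
  have hy : ∀ n, y n ∈ Metric.closedBall (0 : ι → W) 1 := by
    intro n
    rw [mem_closedBall_zero_iff, pi_norm_le_iff_of_nonneg zero_le_one]
    intro i
    exact hx n i
  obtain ⟨a, -, φ, hφ, hlim⟩ := (isCompact_closedBall (0 : ι → W) 1).tendsto_subseq hy
  rw [Metric.tendsto_atTop] at hlim
  obtain ⟨M, hM⟩ := hlim (ε / 2) (by linarith)
  refine ⟨φ M, φ (M + 1), hφ (Nat.lt_succ_self M), ?_⟩
  intro l
  have h1 := hM M le_rfl
  have h2 := hM (M + 1) (Nat.le_succ M)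
  have h3 : dist (y (φ M)) (y (φ (M + 1))) < ε := by
    calc dist (y (φ M)) (y (φ (M + 1))) ≤ dist (y (φ M)) a + dist a (y (φ (M + 1))) :=
          dist_triangle _ _ _
      _ < ε / 2 + ε / 2 := add_lt_add h1 (by rw [dist_comm]; exact h2)
      _ = ε := by ring
  have h4 : dist (y (φ M) l) (y (φ (M + 1)) l) < ε := (dist_le_pi_dist _ _ l).trans_lt h3
  rw [dist_eq_norm] at h4
  calc v p (x (φ M) l - x (φ (M + 1)) l) = ‖y (φ M) l - y (φ (M + 1)) l‖ := by
        rw [v, map_sub]; rfl
    _ < ε := h4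

/-- units have finite order modulo the maximal ideal -/
theorem exists_pow_close {x : Qb} (hx : v p x = 1) : ∃ n : ℕ, 1 ≤ n ∧ v p (x ^ n - 1) < 1 := by
  obtain ⟨W, hW, hxW⟩ := exists_sbf p {x}
  obtain ⟨i, j, hij, h⟩ := exists_close p (ι := Unit) W
    (fun n _ => x ^ n)
    (fun n _ => pow_mem (hxW x (Finset.mem_singleton_self x)) n)
    (fun n _ => by rw [v_pow, hx, one_pow]) one_pos
  refine ⟨j - i, by omega, ?_⟩
  have h1 := h ()
  have h2 : x ^ i - x ^ j = - (x ^ i * (x ^ (j - i) - 1)) := by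
    have : x ^ j = x ^ i * x ^ (j - i) := by rw [← pow_add]; congr 1; omega
    rw [this]; ring
  rwa [h2, v_neg, v_mul, v_pow, hx, one_pow, one_mul] at h1

end Pool.Agent.H18.VP
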