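import Pool.Agent.H18.VP.Recur
import Pool.Agent.H12.ZD.Local

/-!
# The valuation ring and its residue field
-/

open Polynomial Function IsLocalRing

namespace Pool.Agent.H18.VP

variable {Qb : Type} [Field Qb]

/-- the valuation ring -/
noncomputable def O (p : Pl Qb) : ValuationSubring Qb :=
  ValuationSubring.ofSubring
    { carrier := {x | v p x ≤ 1}
      mul_mem' := by
        intro x y hx hy
        change v p (x * y) ≤ 1
        rw [v_mul]
        exact mul_le_one₀ hx (v_nonneg p y) hy
      one_mem' := by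
        change v p 1 ≤ 1
        rw [v_one]
      add_mem' := by
        intro x y hx hy
        exact v_add_le' p hx hy
      zero_mem' := by
        change v p 0 ≤ 1
        rw [v_zero]
        exact zero_le_one
      neg_mem' := by
        intro x hx
        change v p (-x) ≤ 1
        rw [v_neg]
        exact hx }
    (by
      intro x
      change v p x ≤ 1 ∨ v p x⁻¹ ≤ 1
      rcases le_or_gt (v p x) 1 with h | h
      · exact Or.inl h
      · right
        rw [v_inv]
        exact inv_le_one_of_one_le₀ h.le)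

variable (p : Pl Qb)

theorem mem_O {x : Qb} : x ∈ O p ↔ v p x ≤ 1 := Iff.rfl

theorem isUnit_O {x : O p} : IsUnit x ↔ v p (x : Qb) = 1 := by
  constructor
  · rintro ⟨u, rfl⟩
    have h1 : v p ((u : O p) : Qb) ≤ 1 := (u : O p).2
    have h2 : v p ((u⁻¹ : (O p)ˣ) : Qb) ≤ 1 := ((u⁻¹ : (O p)ˣ) : O p).2
    have h3 : ((u : O p) : Qb) * ((u⁻¹ : (O p)ˣ) : Qb) = 1 := by
      have := congrArg (fun z : O p => (z : Qb)) u.mul_inv
      exact this
    have h4 : v p ((u : O p) : Qb) * v p ((u⁻¹ : (O p)ˣ) : Qb) = 1 := by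
      rw [← v_mul, h3, v_one]
    apply le_antisymm h1
    by_contra hlt
    rw [not_le] at hlt
    have h5 : v p ((u : O p) : Qb) * v p ((u⁻¹ : (O p)ˣ) : Qb) < 1 := by
      calc v p ((u : O p) : Qb) * v p ((u⁻¹ : (O p)ˣ) : Qb)
          ≤ v p ((u : O p) : Qb) * 1 := mul_le_mul_of_nonneg_left h2 (v_nonneg p _)
        _ < 1 := by rw [mul_one]; exact hlt
    rw [h4] at h5
    exact lt_irrefl _ h5
  · intro h
    have hx : (x : Qb) ≠ 0 := by
      intro h0
      rw [h0, v_zero] at h
      exact zero_ne_one h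
    refine IsUnit.of_mul_eq_one (⟨(x : Qb)⁻¹, ?_⟩ : O p) ?_
    · rw [mem_O, v_inv, h, inv_one]
    · apply Subtype.ext
      exact mul_inv_cancel₀ hx

theorem residue_eq_zero {x : O p} : residue (O p) x = 0 ↔ v p (x : Qb) < 1 := by
  rw [residue_eq_zero_iff, mem_maximalIdeal, mem_nonunits_iff, isUnit_O]
  exact ⟨fun h => lt_of_le_of_ne x.2 h, fun h => ne_of_lt h⟩

theorem residue_ne_zero {x : O p} : residue (O p) x ≠ 0 ↔ v p (x : Qb) = 1 := by
  rw [Ne, residue_eq_zero_iff, mem_maximalIdeal, mem_nonunits_iff, isUnit_O, not_not]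

theorem residue_eq {x y : O p} : residue (O p) x = residue (O p) y ↔ v p ((x : Qb) - y) < 1 := by
  rw [← sub_eq_zero, ← map_sub, residue_eq_zero]
  rfl

/-- the residue field -/
noncomputable abbrev Res (p : Pl Qb) : Type := ResidueField (O p)

theorem residue_surjective : Function.Surjective (residue (O p)) := IsLocalRing.residue_surjective

theorem res_cast : ((p : ℕ) : Res p) = 0 := by
  have h : residue (O p) ((p : ℕ) : O p) = 0 := by
    rw [residue_eq_zero]
    have : (((p : ℕ) : O p) : Qb) = ((p : ℕ) : Qb) := by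
      exact map_natCast (O p).subtype (p : ℕ)
    rw [this]
    exact v_self_lt p
  rw [← h, map_natCast]

theorem res_natCast_ne_zero {n : ℕ} (hn : ¬ (p : ℕ) ∣ n) : (n : Res p) ≠ 0 := by
  have h : residue (O p) ((n : ℕ) : O p) ≠ 0 := by
    rw [residue_ne_zero]
    have : (((n : ℕ) : O p) : Qb) = ((n : ℕ) : Qb) := by
      exact map_natCast (O p).subtype n
    rw [this]
    exact v_natCast_eq p hn
  rwa [map_natCast] at h

theorem res_finite_order (a : Res p) (ha : a ≠ 0) : ∃ n : ℕ, 1 ≤ n ∧ a ^ n = 1 := by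
  obtain ⟨x, rfl⟩ := residue_surjective p a
  obtain ⟨n, hn, h⟩ := exists_pow_close p ((residue_ne_zero p).mp ha)
  refine ⟨n, hn, ?_⟩
  rw [← map_pow, ← map_one (residue (O p)), residue_eq]
  exact h

instance [IsAlgClosed Qb] : IsAlgClosed (Res p) := by
  apply IsAlgClosed.of_exists_root
  intro P hP hirr
  obtain ⟨q, hq, hqdeg, hqmon⟩ := lifts_and_natDegree_eq_and_monic
    (f := residue (O p)) (p := P) (by
      rw [lifts_iff_coeff_lifts]
      intro n
      obtain ⟨x, hx⟩ := residue_surjective p (P.coeff n)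
      exact ⟨x, hx⟩) hP
  have hdeg : 0 < P.natDegree := hirr.natDegree_pos
  obtain ⟨z, hz⟩ := IsAlgClosed.exists_root (q.map (O p).subtype) (by
    rw [degree_map_eq_of_injective (O p).subtype_injective, degree_eq_natDegree hqmon.ne_zero,
      hqdeg]
    exact_mod_cast hdeg.ne')
  -- the root is integral
  have hzint : v p z ≤ 1 := by
    by_contra hlt
    rw [not_le] at hlt
    have hz0 : 0 < v p z := by linarith
    have h1 : z ^ q.natDegree =
        - ∑ i ∈ Finset.range q.natDegree, ((q.coeff i : O p) : Qb) * z ^ i := by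
      rw [IsRoot.def, eval_map, eval₂_eq_sum_range, Finset.sum_range_succ,
        hqmon.coeff_natDegree, map_one, one_mul] at hz
      have : ∀ i, (O p).subtype (q.coeff i) = ((q.coeff i : O p) : Qb) := fun i => rfl
      simp only [this] at hz
      linear_combination hz
    have h2 : v p z ^ q.natDegree < v p z ^ q.natDegree := by
      calc v p z ^ q.natDegree = v p (z ^ q.natDegree) := (v_pow p z _).symm
        _ = v p (∑ i ∈ Finset.range q.natDegree, ((q.coeff i : O p) : Qb) * z ^ i) := by
          rw [h1, v_neg]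
        _ < v p z ^ q.natDegree := by
          apply v_sum_lt p _ _ (by positivity)
          intro i hi
          rw [v_mul, v_pow]
          calc v p ((q.coeff i : O p) : Qb) * v p z ^ i ≤ 1 * v p z ^ i :=
                mul_le_mul_of_nonneg_right (q.coeff i).2 (by positivity)
            _ = v p z ^ i := one_mul _
            _ < v p z ^ q.natDegree := pow_lt_pow_right₀ hlt (Finset.mem_range.mp hi)
    exact lt_irrefl _ h2
  have hzO : z ∈ O p := (mem_O p).mpr hzint
  refine ⟨residue (O p) ⟨z, hzO⟩, ?_⟩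
  rw [← hq, eval_map, eval₂_at_apply]
  have h3 : (O p).subtype (q.eval ⟨z, hzO⟩) = 0 := by
    rw [← eval₂_at_apply, ← eval_map]
    exact hz
  have h4 : q.eval (⟨z, hzO⟩ : O p) = 0 := by
    apply (O p).subtype_injective
    rw [h3, map_zero]
  rw [h4, map_zero]

end Pool.Agent.H18.VP
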